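import Pool.Agent.Work.MP_bec1e1_lv_helper15.Tools0

/-!
# BLOW: blow-up of a set of words (from MCD)
-/

set_option autoImplicit false
set_option maxHeartbeats 400000

open Filter Topology
open scoped BigOperators

namespace Pool.Agent.LCSV

open Pool.Agent.LCSE

namespace H53

open scoped Classical in
/-- number of different letters -/
noncomputable def nd {k : ℕ} (x y : List (Fin k)) : ℕ :=
  ((x.zip y).filter fun p => p.1 ≠ p.2).length

theorem ham_iff {k : ℕ} (x y : List (Fin k)) (h : ℕ) :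
    Ham x y h ↔ x.length = y.length ∧ nd x y ≤ h := by
  unfold Ham nd
  constructor
  · rintro ⟨h1, h2⟩; exact ⟨h1, by convert h2⟩
  · rintro ⟨h1, h2⟩; exact ⟨h1, by convert h2⟩

theorem nd_self {k : ℕ} (x : List (Fin k)) : nd x x = 0 := by
  unfold nd
  rw [List.length_eq_zero_iff, List.filter_eq_nil_iff]
  intro p hp
  have h1 : p.1 = p.2 := by
    induction x with
    | nil => simp at hp
    | cons a x ih =>
      rw [List.zip_cons_cons, List.mem_cons] at hp
      rcases hp with rfl | hp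
      · rfl
      · exact ih hp
  simp [h1]

theorem nd_change {k : ℕ} (l₁ l₂ : List (Fin k)) (e e' : Fin k) (y : List (Fin k))
    (hy : y.length = (l₁ ++ e :: l₂).length) :
    nd (l₁ ++ e' :: l₂) y ≤ nd (l₁ ++ e :: l₂) y + 1 := by
  obtain ⟨m₁, f, m₂, rfl, hm⟩ : ∃ m₁ f m₂, y = m₁ ++ f :: m₂ ∧ m₁.length = l₁.length := by
    have h1 : l₁.length < y.length := by rw [hy]; simp
    refine ⟨y.take l₁.length, y[l₁.length], y.drop (l₁.length + 1), ?_, ?_⟩
    · rw [← List.drop_eq_getElem_cons h1, List.take_append_drop]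
    · rw [List.length_take]; omega
  unfold nd
  rw [List.zip_append hm.symm, List.zip_append hm.symm, List.zip_cons_cons, List.zip_cons_cons,
    List.filter_append, List.filter_append, List.length_append, List.length_append,
    List.filter_cons, List.filter_cons]
  split_ifs <;> (try simp only [List.length_cons]) <;> omega

end H53

open H53 in
theorem stmt_BLOW (hM : Stmt_MCD) : Stmt_BLOW := by
  intro k n h A δ hk hδ hδ1 hA hh
  rcases Nat.eq_zero_or_pos n with hn | hn
  · subst hn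
    have hA' : A [] := by
      by_contra hne
      have : (Ex k 0 fun x => ind (A x)) = 0 := by
        simp only [Ex_zero]; unfold ind; rw [if_neg hne]
      linarith
    have h1 : (Ex k 0 fun x => ind (¬ ∃ x', A x' ∧ x'.length = 0 ∧ Ham x x' h)) = 0 := by
      simp only [Ex_zero]; unfold ind; rw [if_neg]
      rw [not_not]
      exact ⟨[], hA', rfl, (ham_iff _ _ _).mpr ⟨rfl, by rw [nd_self]; exact Nat.zero_le _⟩⟩
    rw [h1]; exact (Real.exp_pos _).le
  -- a member of A
  obtain ⟨x₀, hx₀n, hx₀⟩ : ∃ x₀, x₀.length = n ∧ A x₀ := by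
    by_contra hne
    push Not at hne
    have : (Ex k n fun x => ind (A x)) = 0 := by
      rw [← Ex_zero_fun (k := k) n]
      refine Ex_congr fun w hw => ?_
      unfold ind; rw [if_neg (hne w hw)]
    linarith
  classical
  set S : List (Fin k) → Set ℕ := fun x => {m | ∃ x', A x' ∧ x'.length = n ∧ nd x x' = m} with hS
  have hSne : ∀ x, (S x).Nonempty := fun x => ⟨nd x x₀, x₀, hx₀, hx₀n, rfl⟩
  set d : List (Fin k) → ℕ := fun x => sInf (S x) with hd
  have hdmem : ∀ x, d x ∈ S x := fun x => Nat.sInf_mem (hSne x)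
  have hdle : ∀ x m, m ∈ S x → d x ≤ m := fun x m hm => Nat.sInf_le hm
  have hd0 : ∀ x, x.length = n → A x → d x = 0 := by
    intro x hx hAx
    have := hdle x 0 ⟨x, hAx, hx, nd_self x⟩
    omega
  have hlip1 : ∀ l₁ l₂ e e', (l₁ ++ e :: l₂ : List (Fin k)).length = n →
      d (l₁ ++ e' :: l₂) ≤ d (l₁ ++ e :: l₂) + 1 := by
    intro l₁ l₂ e e' hn'
    obtain ⟨y, hy1, hy2, hy3⟩ := hdmem (l₁ ++ e :: l₂)
    have h1 := nd_change l₁ l₂ e e' y (by rw [hy2, hn'])
    have h2 := hdle (l₁ ++ e' :: l₂) _ ⟨y, hy1, hy2, rfl⟩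
    omega
  have hlip : ∀ x x' : List (Fin k), x.length = n → x'.length = n →
      (∃ l₁ l₂ e e', x = l₁ ++ e :: l₂ ∧ x' = l₁ ++ e' :: l₂) → |(d x : ℝ) - d x'| ≤ 1 := by
    rintro x x' hx hx' ⟨l₁, l₂, e, e', rfl, rfl⟩
    have h1 := hlip1 l₁ l₂ e e' hx
    have h2 := hlip1 l₁ l₂ e' e hx'
    have h1' : (d (l₁ ++ e' :: l₂) : ℝ) ≤ d (l₁ ++ e :: l₂) + 1 := by exact_mod_cast h1
    have h2' : (d (l₁ ++ e :: l₂) : ℝ) ≤ d (l₁ ++ e' :: l₂) + 1 := by exact_mod_cast h2
    rw [abs_le]; constructor <;> linarith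
  set m : ℝ := Ex k n fun x => (d x : ℝ) with hm
  have hm0 : 0 ≤ m := Ex_nonneg fun w _ => Nat.cast_nonneg _
  have hn0 : (0 : ℝ) < n := by exact_mod_cast hn
  have key := hM k n 0 (fun x _ => (d x : ℝ)) 1 hk one_pos
    (fun x x' y hx hx' _ he => hlip x x' hx hx' he)
    (fun x y y' _ _ _ _ => by simp)
  simp only [Ex_zero, one_pow, one_mul, Nat.cast_zero, add_zero] at key
  rw [← hm] at key
  -- bound of the mean
  have h1 : δ ≤ Real.exp (-(2 * m ^ 2 / n)) := by
    refine hA.trans (le_trans (Ex_mono fun w hw => ?_) (key m hm0).2)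
    unfold ind
    by_cases hAw : A w
    · rw [if_pos hAw, if_pos]
      rw [hd0 w hw hAw]; simp
    · rw [if_neg hAw]; split_ifs <;> norm_num
  have h2 : m ≤ √(n * Real.log (1 / δ) / 2) := by
    apply Real.le_sqrt_of_sq_le
    have h3 := Real.log_le_log hδ h1
    rw [Real.log_exp] at h3
    rw [one_div, Real.log_inv]
    have h4 : 2 * m ^ 2 / n ≤ - Real.log δ := by linarith
    rw [div_le_iff₀ hn0] at h4
    linarith
  have h5 := (key (h - √(n * Real.log (1 / δ) / 2)) (by linarith)).1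
  refine le_trans (Ex_mono fun w hw => ?_) h5
  unfold ind
  by_cases hw1 : ∃ x', A x' ∧ x'.length = n ∧ Ham w x' h
  · rw [if_neg (not_not.mpr hw1)]; split_ifs <;> norm_num
  · rw [if_pos hw1, if_pos]
    have h6 : h < d w := by
      by_contra hne
      obtain ⟨y, hy1, hy2, hy3⟩ := hdmem w
      exact hw1 ⟨y, hy1, hy2, (ham_iff _ _ _).mpr ⟨by rw [hw, hy2], by
        rw [hy3]; exact not_lt.mp hne⟩⟩
    have h7 : (h : ℝ) ≤ d w := by exact_mod_cast h6.le
    linarith

end Pool.Agent.LCSV
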