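import Pool.Agent.Work.MP_bec1e1_lv_helper15.Tools0

/-!
# CHI: Cauchy-Schwarz change of measure for independent cells
-/

set_option autoImplicit false
set_option maxHeartbeats 400000

open Filter Topology
open scoped BigOperators

namespace Pool.Agent.LCSV

open Pool.Agent.LCSE

namespace H53

/-- Cauchy-Schwarz inequality for `Ex` -/
theorem Ex_mul_sq_le {k : ℕ} (n : ℕ) (f g : List (Fin k) → ℝ) :
    (Ex k n fun w => f w * g w) ^ 2 ≤ (Ex k n fun w => f w ^ 2) * (Ex k n fun w => g w ^ 2) := by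
  set a := Ex k n fun w => f w ^ 2 with ha
  set b := Ex k n fun w => g w ^ 2 with hb
  set c := Ex k n fun w => f w * g w with hc
  have ha0 : 0 ≤ a := Ex_nonneg fun w _ => sq_nonneg _
  have hb0 : 0 ≤ b := Ex_nonneg fun w _ => sq_nonneg _
  have key : ∀ t : ℝ, 0 ≤ a - 2 * t * c + t ^ 2 * b := by
    intro t
    have h1 : 0 ≤ Ex k n fun w => (f w - t * g w) ^ 2 := Ex_nonneg fun w _ => sq_nonneg _
    have h2 : (Ex k n fun w => (f w - t * g w) ^ 2) = a - 2 * t * c + t ^ 2 * b := by
      have h3 : (Ex k n fun w => (f w - t * g w) ^ 2) =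
          Ex k n fun w => (f w ^ 2 - (2 * t) * (f w * g w)) + t ^ 2 * g w ^ 2 :=
        Ex_congr fun w _ => by ring
      rw [h3, Ex_add, Ex_sub, Ex_const_mul, Ex_const_mul]
    rw [h2] at h1; exact h1
  rcases eq_or_lt_of_le hb0 with hb1 | hb1
  · have hc0 : c = 0 := by
      by_contra hne
      have h4 := key ((a + 1) / (2 * c))
      rw [← hb1] at h4
      have h5 : 2 * ((a + 1) / (2 * c)) * c = a + 1 := by field_simp
      rw [h5] at h4
      linarith
    rw [hc0, ← hb1]; simp
  · have h4 := key (c / b)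
    have h5 : a - 2 * (c / b) * c + (c / b) ^ 2 * b = a - c ^ 2 / b := by
      field_simp; ring
    rw [h5, sub_nonneg, div_le_iff₀ hb1] at h4
    exact h4

theorem Exc_nonneg {k s : ℕ} {g : List (Fin k) → ℝ} (hg : ∀ w, w.length = s → 0 ≤ g w) (T : ℕ)
    {f : List (List (Fin k)) → ℝ} (hf : ∀ xs, 0 ≤ f xs) : 0 ≤ Exc k s g T f := by
  induction T generalizing f with
  | zero => exact hf _
  | succ T ih =>
    exact Ex_nonneg fun w hw => mul_nonneg (hg w hw) (ih fun xs => hf _)

end H53

open H53 in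
theorem stmt_CHI : Stmt_CHI := by
  intro k s T g κ A hk hg hκ h0 hA
  induction T generalizing A with
  | zero =>
    have h1 := hA []
    simp only [Exc, Exs, pow_zero, one_mul]
    nlinarith [h1.1, h1.2]
  | succ T ih =>
    have h1 : Exc k s g (T + 1) A = Ex k s fun w => g w * Exc k s g T fun l => A (w :: l) := rfl
    have h2 : Exs k s (T + 1) A = Ex k s fun w => Exs k s T fun l => A (w :: l) := by
      unfold Exs
      show (Ex k s fun w => 1 * Exc k s (fun _ => 1) T fun l => A (w :: l)) = _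
      simp only [one_mul]
    have h3 : ∀ w : List (Fin k), (Exc k s g T fun l => A (w :: l)) ^ 2 ≤
        (1 + κ) ^ T * Exs k s T fun l => A (w :: l) := fun w => ih _ fun xs => hA _
    have h4 : (Ex k s fun w => (Exc k s g T fun l => A (w :: l)) ^ 2) ≤
        (1 + κ) ^ T * Exs k s (T + 1) A := by
      rw [h2, ← Ex_const_mul]
      exact Ex_mono fun w _ => h3 w
    have h5 : 0 ≤ Ex k s fun w => (Exc k s g T fun l => A (w :: l)) ^ 2 :=
      Ex_nonneg fun w _ => sq_nonneg _
    rw [h1]
    calc _ ≤ (Ex k s fun w => g w ^ 2) *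
          (Ex k s fun w => (Exc k s g T fun l => A (w :: l)) ^ 2) := Ex_mul_sq_le s _ _
      _ ≤ (1 + κ) * ((1 + κ) ^ T * Exs k s (T + 1) A) :=
          mul_le_mul hκ h4 h5 (by linarith)
      _ = _ := by ring

end Pool.Agent.LCSV
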