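import Pool.Agent.Work.MP_bec1e1_lv_helper15.Tools0

/-!
# DPI: data processing for an event
-/

set_option autoImplicit false
set_option maxHeartbeats 400000

open Filter Topology
open scoped BigOperators

namespace Pool.Agent.LCSV

namespace H53

/-- Donsker-Varadhan inequality on a finite set -/
theorem donsker {Ω : Type} [Fintype Ω] (P Q g : Ω → ℝ) (hP : ∀ i, 0 < P i) (hQ : ∀ i, 0 ≤ Q i)
    (hQ1 : ∑ i, Q i = 1) (Z : ℝ) (hZ : 0 < Z) (hZ1 : ∑ i, P i * Real.exp (g i) ≤ Z) :
    ∑ i, Q i * g i ≤ (∑ i, Q i * Real.log (Q i / P i)) + Real.log Z := by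
  have h1 : ∀ i, Q i * g i ≤ Q i * Real.log (Q i / P i) + Q i * Real.log Z +
      (P i * Real.exp (g i) / Z - Q i) := by
    intro i
    rcases eq_or_lt_of_le (hQ i) with h | h
    · rw [← h]
      have : 0 ≤ P i * Real.exp (g i) / Z :=
        div_nonneg (mul_nonneg (hP i).le (Real.exp_pos _).le) hZ.le
      simpa using this
    · have h2 : Real.log (P i * Real.exp (g i) / Z / Q i) ≤ P i * Real.exp (g i) / Z / Q i - 1 :=
        Real.log_le_sub_one_of_pos (by have := hP i; positivity)
      have h3 : Real.log (P i * Real.exp (g i) / Z / Q i) =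
          Real.log (P i) + g i - Real.log Z - Real.log (Q i) := by
        have := hP i
        rw [Real.log_div (by positivity) (by positivity), Real.log_div (by positivity)
          (by positivity), Real.log_mul (by positivity) (by positivity), Real.log_exp]
      have h4 : Real.log (Q i / P i) = Real.log (Q i) - Real.log (P i) :=
        Real.log_div (by positivity) (hP i).ne'
      rw [h3] at h2
      rw [h4]
      have h5 : Q i * (P i * Real.exp (g i) / Z / Q i - 1) = P i * Real.exp (g i) / Z - Q i := by
        have := h.ne'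
        field_simp
      have h6 := mul_le_mul_of_nonneg_left h2 h.le
      rw [h5] at h6
      nlinarith [h6]
  have h7 := Finset.sum_le_sum fun i (_ : i ∈ Finset.univ) => h1 i
  have h8 : ∑ i, (Q i * Real.log (Q i / P i) + Q i * Real.log Z +
      (P i * Real.exp (g i) / Z - Q i)) =
      (∑ i, Q i * Real.log (Q i / P i)) + Real.log Z +
        ((∑ i, P i * Real.exp (g i)) / Z - 1) := by
    rw [Finset.sum_add_distrib, Finset.sum_add_distrib, Finset.sum_sub_distrib, hQ1,
      ← Finset.sum_mul, hQ1, one_mul, Finset.sum_div]
  have h9 : (∑ i, P i * Real.exp (g i)) / Z ≤ 1 := (div_le_one hZ).mpr hZ1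
  rw [h8] at h7
  linarith

end H53

open H53 in
theorem stmt_DPI : Stmt_DPI := by
  intro Ω _ P Q A _ D hP hQ hP1 hQ1 hD hq
  set q := ∑ i, if A i then Q i else 0 with hqdef
  set p := ∑ i, if A i then P i else 0 with hpdef
  have hA : ∃ i, A i := by
    by_contra hne
    have : q = 0 := by
      rw [hqdef]
      exact Finset.sum_eq_zero fun i _ => if_neg fun h => hne ⟨i, h⟩
    linarith
  have hp : 0 < p := by
    obtain ⟨i, hi⟩ := hA
    have h1 : (if A i then P i else 0) ≤ p :=
      Finset.single_le_sum (f := fun i => if A i then P i else 0)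
        (fun j _ => by split_ifs; exacts [(hP j).le, le_rfl]) (Finset.mem_univ i)
    rw [if_pos hi] at h1
    exact (hP i).trans_le h1
  have hp1 : p ≤ 1 := by
    rw [← hP1]
    exact Finset.sum_le_sum fun i _ => by split_ifs; exacts [le_rfl, (hP i).le]
  -- the test function
  have key := donsker P Q (fun i => if A i then Real.log (1 / p) else 0) hP hQ hQ1 2 (by norm_num)
    (by
      have h1 : ∀ i, P i * Real.exp (if A i then Real.log (1 / p) else 0) ≤
          (if A i then P i else 0) / p + P i := by
        intro i
        by_cases h : A i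
        · rw [if_pos h, if_pos h, Real.exp_log (by positivity)]
          have := (hP i).le
          rw [mul_one_div]; linarith
        · rw [if_neg h, if_neg h]; simp
      have h2 := Finset.sum_le_sum fun i (_ : i ∈ Finset.univ) => h1 i
      rw [Finset.sum_add_distrib, ← Finset.sum_div, hP1, ← hpdef, div_self hp.ne'] at h2
      linarith)
  have h1 : (∑ i, Q i * (if A i then Real.log (1 / p) else 0)) = q * Real.log (1 / p) := by
    rw [hqdef, Finset.sum_mul]
    exact Finset.sum_congr rfl fun i _ => by split_ifs <;> simp
  rw [h1] at key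
  have h2 : Real.log (1 / p) ≤ (D + Real.log 2) / q := by
    rw [le_div_iff₀ hq]; linarith
  rw [one_div, Real.log_inv] at h2
  calc Real.exp (-((D + Real.log 2) / q)) ≤ Real.exp (Real.log p) :=
        Real.exp_le_exp.mpr (by linarith)
    _ = p := Real.exp_log hp

end Pool.Agent.LCSV
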