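import Pool.Agent.Work.MP_bec1e1_FIN_h39.Interface

/-!
# GREEDY and WIDE
-/

set_option autoImplicit false
set_option maxHeartbeats 400000

open Filter Topology
open scoped BigOperators

namespace Pool.Agent.LCSV

open Pool.Agent.LCSE

namespace H53

theorem ind_le_one' (P : Prop) : ind P ≤ 1 := by unfold ind; split_ifs <;> norm_num

theorem ind_nonneg' (P : Prop) : 0 ≤ ind P := by unfold ind; split_ifs <;> norm_num

theorem ind_mono' {P Q : Prop} (h : P → Q) : ind P ≤ ind Q := by
  unfold ind
  by_cases hP : P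
  · rw [if_pos hP, if_pos (h hP)]
  · rw [if_neg hP]; split_ifs <;> norm_num

theorem ind_or_le (P Q : Prop) : ind (P ∨ Q) ≤ ind P + ind Q := by
  unfold ind
  by_cases hP : P <;> by_cases hQ : Q <;> simp [hP, hQ]

theorem ind_exists_le {ι : Type*} (s : Finset ι) (P : ι → Prop) :
    ind (∃ i ∈ s, P i) ≤ ∑ i ∈ s, ind (P i) := by
  by_cases h : ∃ i ∈ s, P i
  · obtain ⟨i, hi, hP⟩ := h
    have h1 : ind (P i) ≤ ∑ i ∈ s, ind (P i) :=
      Finset.single_le_sum (f := fun i => ind (P i)) (fun j _ => ind_nonneg' _) hi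
    have h2 : ind (P i) = 1 := by unfold ind; rw [if_pos hP]
    linarith [ind_le_one' (∃ i ∈ s, P i)]
  · have h1 : ind (∃ i ∈ s, P i) = 0 := by unfold ind; rw [if_neg h]
    rw [h1]
    exact Finset.sum_nonneg fun i _ => ind_nonneg' _

/-- the law of a window -/
theorem Ex_window {k : ℕ} (hk : 0 < k) (g h b : ℕ) (hb : g + h ≤ b) (φ : List (Fin k) → ℝ) :
    (Ex k b fun y => φ ((y.drop g).take h)) = Ex k h φ := by
  obtain ⟨c, rfl⟩ := Nat.exists_eq_add_of_le hb
  rw [add_assoc, Ex_append]
  have h1 : ∀ u : List (Fin k), u.length = g →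
      (Ex k (h + c) fun v => φ (((u ++ v).drop g).take h)) = Ex k h φ := by
    intro u hu
    rw [Ex_append]
    have h2 : ∀ v : List (Fin k), v.length = h →
        (Ex k c fun v' => φ (((u ++ (v ++ v')).drop g).take h)) = φ v := by
      intro v hv
      have h3 : ∀ v' : List (Fin k), v'.length = c →
          φ (((u ++ (v ++ v')).drop g).take h) = φ v := by
        intro v' _
        rw [List.drop_left' hu, List.take_left' hv]
      rw [Ex_congr h3, Ex_const hk]
    exact Ex_congr h2
  rw [Ex_congr h1, Ex_const hk]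

end H53

open H53 in
theorem stmt_GREEDY : Stmt_GREEDY := by
  intro k w x hk
  have hk0 : (0 : ℝ) < k := by
    have : 0 < k := by omega
    exact_mod_cast this
  set ρ : ℝ := 1 - (1 - Real.exp (-1)) / k with hρ
  have he : Real.exp (-1) < 1 := by rw [Real.exp_lt_one_iff]; norm_num
  have hρ0 : 0 ≤ ρ := by
    rw [hρ, sub_nonneg, div_le_one hk0]
    have : (2 : ℝ) ≤ k := by exact_mod_cast hk
    linarith [Real.exp_pos (-1)]
  induction w generalizing x with
  | zero =>
    simp only [Ex_zero, pow_zero, mul_one]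
    have h1 : (1 : ℝ) ≤ Real.exp x.length := Real.one_le_exp (Nat.cast_nonneg _)
    exact (ind_le_one' _).trans h1
  | succ w ih =>
    cases x with
    | nil =>
      have h1 : (Ex k (w + 1) fun v => ind (L ([] : List (Fin k)) v < ([] : List (Fin k)).length))
          = 0 := by
        rw [← Ex_zero_fun (k := k) (w + 1)]
        refine Ex_congr fun v _ => ?_
        unfold ind; rw [if_neg]; simp
      rw [h1]; positivity
    | cons a x =>
      rw [Ex_succ]
      have h1 : ∀ c : Fin k, (Ex k w fun v => ind (L (a :: x) (c :: v) < (a :: x).length)) ≤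
          if c = a then Real.exp x.length * ρ ^ w else Real.exp (a :: x).length * ρ ^ w := by
        intro c
        split_ifs with hc
        · subst hc
          refine le_trans (Ex_mono fun v _ => ind_mono' fun h => ?_) (ih x)
          have := L_cons_cons_self c x v
          rw [List.length_cons] at h
          omega
        · refine le_trans (Ex_mono fun v _ => ind_mono' fun h => ?_) (ih (a :: x))
          have := L_cons_right c (a :: x) v
          omega
      have h2 := Finset.sum_le_sum fun c (_ : c ∈ Finset.univ) => h1 c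
      have h3 : (∑ c : Fin k, if c = a then Real.exp x.length * ρ ^ w
          else Real.exp (a :: x).length * ρ ^ w) = Real.exp x.length * ρ ^ w +
          ((k : ℝ) - 1) * (Real.exp (a :: x).length * ρ ^ w) := by
        rw [← Finset.add_sum_erase _ _ (Finset.mem_univ a), if_pos rfl]
        congr 1
        have h4 : ∀ c ∈ Finset.univ.erase a, (if c = a then Real.exp (x.length : ℝ) * ρ ^ w
            else Real.exp ((a :: x).length : ℝ) * ρ ^ w) =
            Real.exp ((a :: x).length : ℝ) * ρ ^ w := by
          intro c hc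
          rw [if_neg (Finset.ne_of_mem_erase hc)]
        rw [Finset.sum_congr rfl h4, Finset.sum_const, Finset.card_erase_of_mem
          (Finset.mem_univ a), Finset.card_univ, Fintype.card_fin, nsmul_eq_mul,
          Nat.cast_sub (by omega), Nat.cast_one]
      rw [h3] at h2
      have h5 : Real.exp (x.length : ℝ) = Real.exp ((a :: x).length : ℝ) * Real.exp (-1) := by
        rw [← Real.exp_add]; congr 1; rw [List.length_cons]; push_cast; ring
      rw [div_le_iff₀ hk0]
      refine h2.trans (le_of_eq ?_)
      rw [h5, pow_succ, hρ]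
      field_simp
      ring

open H53 in
theorem stmt_WIDE : Stmt_WIDE := by
  intro k C p q Pl Pu W
  have hk := W.hk
  have hkn : 0 < k := by omega
  have hk0 : (0 : ℝ) < k := by exact_mod_cast hkn
  have hk1 : (1 : ℝ) ≤ k := by exact_mod_cast (by omega : 1 ≤ k)
  have hlog : 0 ≤ Real.log k := Real.log_nonneg hk1
  have he : Real.exp (-1) < 1 := by rw [Real.exp_lt_one_iff]; norm_num
  set e1 : ℝ := 1 - Real.exp (-1) with he1
  have he10 : 0 < e1 := by rw [he1]; linarith
  have he11 : e1 ≤ 1 := by rw [he1]; linarith [Real.exp_pos (-1)]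
  set K : ℕ := ⌈(k / e1) * (2 + 6 * Real.log k)⌉₊ with hK
  have hK1 : (k / e1) * (2 + 6 * Real.log k) ≤ K := Nat.le_ceil _
  have hKpos : 1 ≤ K := Nat.one_le_ceil_iff.mpr (by positivity)
  refine ⟨K, hKpos, fun G hG ε hε => ?_⟩
  -- asymptotics
  have hlim : Tendsto (fun s : ℕ => ((k * s + 1) * Real.exp (-(s : ℝ))) * (1 + 1 / ε)) atTop
      (𝓝 0) := by
    have h1 : Tendsto (fun x : ℝ => x ^ 1 * Real.exp (-x)) atTop (𝓝 0) :=
      Real.tendsto_pow_mul_exp_neg_atTop_nhds_zero 1
    have h2 : Tendsto (fun x : ℝ => x ^ 0 * Real.exp (-x)) atTop (𝓝 0) :=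
      Real.tendsto_pow_mul_exp_neg_atTop_nhds_zero 0
    have h3 := ((h1.const_mul (k : ℝ)).add h2).mul_const (1 + 1 / ε)
    have h4 := h3.comp tendsto_natCast_atTop_atTop
    simp only [mul_zero, add_zero, zero_mul] at h4
    refine h4.congr fun s => ?_
    simp only [Function.comp, pow_one, pow_zero, one_mul]
    ring
  filter_upwards [hlim.eventually_le_const hε, eventually_ge_atTop 1] with s hs hs1
  intro u hu
  set D : ℕ := G * s with hD
  have hDs : (s : ℝ) ≤ D := by
    have : s ≤ D := by rw [hD]; exact Nat.le_mul_of_pos_left s (by omega)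
    exact_mod_cast this
  have hD1 : 1 ≤ D := by rw [hD]; exact Nat.mul_pos (by omega) (by omega)
  have hD0 : (0 : ℝ) < D := by exact_mod_cast hD1
  set δ : ℝ := Real.exp (-((1 + 6 * Real.log k) * s)) with hδ
  have hδ0 : 0 < δ := Real.exp_pos _
  -- the basic probability
  have hbasic : ∀ x : List (Fin k), x.length = D →
      (Ex k (K * D) fun v => ind (L x v < x.length)) ≤ δ := by
    intro x hx
    refine (stmt_GREEDY k (K * D) x hk).trans ?_
    have h1 : 1 - (1 - Real.exp (-1)) / k ≤ Real.exp (-(e1 / k)) :=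
      Real.one_sub_le_exp_neg _
    have h0 : 0 ≤ 1 - (1 - Real.exp (-1)) / k := by
      rw [sub_nonneg, div_le_one hk0]; rw [← he1]; linarith
    have h2 := pow_le_pow_left₀ h0 h1 (K * D)
    rw [← Real.exp_nat_mul] at h2
    calc _ ≤ Real.exp x.length * Real.exp (((K * D : ℕ) : ℝ) * (-(e1 / k))) :=
          mul_le_mul_of_nonneg_left h2 (Real.exp_pos _).le
      _ ≤ δ := by
        rw [← Real.exp_add, hδ, hx]
        apply Real.exp_le_exp.mpr
        push_cast
        have h3 : (2 + 6 * Real.log k) ≤ K * (e1 / k) := by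
          have h4 := mul_le_mul_of_nonneg_right hK1 (show 0 ≤ e1 / k by positivity)
          have h5 : k / e1 * (2 + 6 * Real.log k) * (e1 / k) = 2 + 6 * Real.log k := by
            field_simp
          rw [h5] at h4; exact h4
        have h6 : (2 + 6 * Real.log k) * D ≤ K * (e1 / k) * D :=
          mul_le_mul_of_nonneg_right h3 hD0.le
        have h7 : (1 + 6 * Real.log k) * s ≤ (1 + 6 * Real.log k) * D :=
          mul_le_mul_of_nonneg_left hDs (by positivity)
        nlinarith
  -- the second kind of windows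
  have hsecond : (Ex k (K * D) fun v => ind (¬ ((1 - ε) * D ≤
      (Ex k D fun r => (L r v : ℝ))))) ≤ δ / ε := by
    have h1 : ∀ v : List (Fin k), v.length = K * D → ind (¬ ((1 - ε) * D ≤
        (Ex k D fun r => (L r v : ℝ)))) ≤ (1 / ε) * Ex k D fun r => ind (L r v < r.length) := by
      intro v _
      by_cases hv : (1 - ε) * D ≤ (Ex k D fun r => (L r v : ℝ))
      · have : ind (¬ ((1 - ε) * D ≤ (Ex k D fun r => (L r v : ℝ)))) = 0 := by
          unfold ind; rw [if_neg (not_not.mpr hv)]
        rw [this]
        have : 0 ≤ Ex k D fun r => ind (L r v < r.length) := Ex_nonneg fun r _ => ind_nonneg' _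
        positivity
      · have h2 : (D : ℝ) - D * (Ex k D fun r => ind (L r v < r.length)) ≤
            Ex k D fun r => (L r v : ℝ) := by
          rw [← Ex_const_mul, ← Ex_const hkn D (D : ℝ), ← Ex_sub, Ex_const hkn D (D : ℝ)]
          refine Ex_mono fun r hr => ?_
          by_cases h3 : L r v < r.length
          · have : ind (L r v < r.length) = 1 := by unfold ind; rw [if_pos h3]
            rw [this]
            have : (0 : ℝ) ≤ L r v := Nat.cast_nonneg _
            linarith
          · have : ind (L r v < r.length) = 0 := by unfold ind; rw [if_neg h3]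
            rw [this]
            have : (D : ℝ) ≤ L r v := by rw [← hr]; exact_mod_cast not_lt.mp h3
            linarith
        have h4 : ε < Ex k D fun r => ind (L r v < r.length) := by
          have h5 : D * ε < D * Ex k D fun r => ind (L r v < r.length) := by
            have := not_le.mp hv
            linarith
          exact lt_of_mul_lt_mul_left h5 hD0.le
        refine (ind_le_one' _).trans ?_
        rw [one_div, ← div_eq_inv_mul, le_div_iff₀ hε]
        linarith
    refine (Ex_mono h1).trans ?_
    rw [Ex_const_mul, Ex_comm]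
    have h2 : (Ex k D fun r => Ex k (K * D) fun v => ind (L r v < r.length)) ≤ δ :=
      Ex_le_const hkn fun r hr => hbasic r hr
    rw [div_eq_mul_one_div δ ε, mul_comm δ]
    exact mul_le_mul_of_nonneg_left h2 (by positivity)
  -- union over g
  set b := bb k s with hb
  have hbb : (b : ℝ) ≤ k * (k : ℝ) ^ (4 * s) * s := by
    rw [hb]
    unfold bb
    have hNN : ((NN k s : ℕ) : ℝ) = (k : ℝ) ^ (4 * s) := by unfold NN; push_cast; rfl
    have h0 : (0 : ℝ) ≤ (k : ℝ) ^ (4 * s) * s := by positivity
    split_ifs with hr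
    · push_cast
      rw [hNN]
      nlinarith
    · have hr1 : rho k < k := W.phi.rho_lt
      have hr2 : 1 ≤ rho k := W.phi.rho_one
      rcases le_or_gt 0 (rho k * ((NN k s : ℝ) - HH k s) * s) with h1 | h1
      · refine (Nat.floor_le h1).trans ?_
        have h2 : (0 : ℝ) ≤ HH k s := Nat.cast_nonneg _
        calc rho k * ((NN k s : ℝ) - HH k s) * s ≤ rho k * (NN k s : ℝ) * s := by
              apply mul_le_mul_of_nonneg_right _ (Nat.cast_nonneg _)
              apply mul_le_mul_of_nonneg_left _ (by linarith)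
              linarith
          _ ≤ k * (NN k s : ℝ) * s := by
              apply mul_le_mul_of_nonneg_right _ (Nat.cast_nonneg _)
              exact mul_le_mul_of_nonneg_right hr1.le (Nat.cast_nonneg _)
          _ = _ := by rw [hNN]
      · rw [Nat.floor_of_nonpos h1.le]
        push_cast
        rw [mul_assoc]; positivity
  have hunion : (Ex k b fun y => ind (¬ Wide k D K ε u y)) ≤ (b + 1) * (δ + δ / ε) := by
    have h1 : ∀ y : List (Fin k), y.length = b → ind (¬ Wide k D K ε u y) ≤
        ∑ g ∈ Finset.range (b + 1), if g + 2 * (K * D) ≤ b then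
          (ind (L u ((y.drop (g + K * D)).take (K * D)) < u.length) +
          ind (¬ ((1 - ε) * D ≤ (Ex k D fun r => (L r ((y.drop g).take (K * D)) : ℝ))))) else 0 := by
      intro y hy
      have h2 : ind (¬ Wide k D K ε u y) ≤ ind (∃ g ∈ Finset.range (b + 1),
          g + 2 * (K * D) ≤ b ∧ (L u ((y.drop (g + K * D)).take (K * D)) < u.length ∨
          ¬ ((1 - ε) * D ≤ (Ex k D fun r => (L r ((y.drop g).take (K * D)) : ℝ))))) := by
        refine ind_mono' fun h => ?_
        unfold Wide at h
        push Not at h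
        obtain ⟨g, hg, h3⟩ := h
        rw [hy] at hg
        refine ⟨g, Finset.mem_range.mpr (by omega), hg, ?_⟩
        by_cases h4 : L u ((y.drop (g + K * D)).take (K * D)) = D
        · exact Or.inr (not_le.mpr (h3 h4))
        · left
          have := L_le_left u ((y.drop (g + K * D)).take (K * D))
          omega
      refine h2.trans ((ind_exists_le _ _).trans (Finset.sum_le_sum fun g _ => ?_))
      split_ifs with h3
      · refine le_trans (ind_mono' fun h => h.2) (ind_or_le _ _)
      · unfold ind; rw [if_neg fun h => h3 h.1]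
    refine (Ex_mono h1).trans ?_
    rw [Ex_finset_sum]
    have h2 : ∀ g ∈ Finset.range (b + 1), (Ex k b fun y => if g + 2 * (K * D) ≤ b then
          (ind (L u ((y.drop (g + K * D)).take (K * D)) < u.length) +
          ind (¬ ((1 - ε) * D ≤ (Ex k D fun r => (L r ((y.drop g).take (K * D)) : ℝ))))) else 0) ≤
          δ + δ / ε := by
      intro g _
      split_ifs with h3
      · rw [Ex_add]
        apply add_le_add
        · rw [Ex_window hkn (g + K * D) (K * D) b (by omega) (fun v => ind (L u v < u.length))]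
          exact hbasic u hu
        · rw [Ex_window hkn g (K * D) b (by omega)
            (fun v => ind (¬ ((1 - ε) * D ≤ (Ex k D fun r => (L r v : ℝ)))))]
          exact hsecond
      · rw [Ex_zero_fun]; positivity
    refine (Finset.sum_le_sum h2).trans (le_of_eq ?_)
    rw [Finset.sum_const, Finset.card_range, nsmul_eq_mul]
    push_cast; ring
  refine hunion.trans (le_trans ?_ hs)
  -- numerics
  have hδ1 : δ = Real.exp (-(s : ℝ)) * ((k : ℝ) ^ (6 * s))⁻¹ := by
    rw [hδ, ← Real.exp_log (show (0 : ℝ) < ((k : ℝ) ^ (6 * s))⁻¹ by positivity), ← Real.exp_add,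
      Real.log_inv, Real.log_pow]
    congr 1; push_cast; ring
  have h1 : (b + 1 : ℝ) * δ ≤ (k * s + 1) * Real.exp (-(s : ℝ)) := by
    have h2 : (1 : ℝ) ≤ (k : ℝ) ^ (4 * s) := one_le_pow₀ hk1
    have h3 : (k : ℝ) ^ (4 * s) ≤ (k : ℝ) ^ (6 * s) := pow_le_pow_right₀ hk1 (by omega)
    have h4 : (b + 1 : ℝ) ≤ (k * s + 1) * (k : ℝ) ^ (6 * s) := by
      have h5 : k * (k : ℝ) ^ (4 * s) * s ≤ k * s * (k : ℝ) ^ (6 * s) := by
        have : k * (k : ℝ) ^ (4 * s) * s = k * s * (k : ℝ) ^ (4 * s) := by ring
        rw [this]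
        exact mul_le_mul_of_nonneg_left h3 (by positivity)
      have h6 : (1 : ℝ) ≤ (k : ℝ) ^ (6 * s) := h2.trans h3
      rw [add_mul, one_mul]
      linarith
    rw [hδ1]
    have h7 : (0 : ℝ) < (k : ℝ) ^ (6 * s) := by positivity
    calc (b + 1 : ℝ) * (Real.exp (-(s : ℝ)) * ((k : ℝ) ^ (6 * s))⁻¹) =
          ((b + 1) / (k : ℝ) ^ (6 * s)) * Real.exp (-(s : ℝ)) := by ring
      _ ≤ (k * s + 1) * Real.exp (-(s : ℝ)) := by
          apply mul_le_mul_of_nonneg_right _ (Real.exp_pos _).le
          rw [div_le_iff₀ h7]; exact h4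
  calc ((b : ℝ) + 1) * (δ + δ / ε) = ((b + 1) * δ) * (1 + 1 / ε) := by ring
    _ ≤ ((k * s + 1) * Real.exp (-(s : ℝ))) * (1 + 1 / ε) :=
        mul_le_mul_of_nonneg_right h1 (by positivity)

end Pool.Agent.LCSV
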