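import Pool.Agent.Work.MP_bec1e1_lv_helper53.GREEDY

/-!
# TUP and TYPP
-/

set_option autoImplicit false
set_option maxHeartbeats 400000

open Filter Topology
open scoped BigOperators

namespace Pool.Agent.LCSV

open Pool.Agent.LCSE

namespace H53

/-- bounded differences for one word -/
theorem mcd1 (hM : Stmt_MCD) {k b : ℕ} (hk : 0 < k) (g : List (Fin k) → ℝ)
    (hlip : ∀ y y' : List (Fin k), y.length = b → y'.length = b →
      (∃ l₁ l₂ e e', y = l₁ ++ e :: l₂ ∧ y' = l₁ ++ e' :: l₂) → |g y - g y'| ≤ 1)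
    {t : ℝ} (ht : 0 ≤ t) :
    (Ex k b fun y => ind ((Ex k b g) + t ≤ g y)) ≤ Real.exp (-(2 * t ^ 2 / b)) ∧
    (Ex k b fun y => ind (g y ≤ (Ex k b g) - t)) ≤ Real.exp (-(2 * t ^ 2 / b)) := by
  have key := hM k 0 b (fun _ y => g y) 1 hk one_pos (fun x x' y _ _ _ _ => by simp)
    (fun x y y' _ hy hy' he => hlip y y' hy hy' he) t ht
  simp only [Ex_zero, one_pow, one_mul, Nat.cast_zero, zero_add] at key
  exact key

theorem L_lip_right (hL : Stmt_LIP) {k : ℕ} (x y y' : List (Fin k))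
    (he : ∃ l₁ l₂ e e', y = l₁ ++ e :: l₂ ∧ y' = l₁ ++ e' :: l₂) :
    |(L x y : ℝ) - L x y'| ≤ 1 := by
  obtain ⟨l₁, l₂, e, e', rfl, rfl⟩ := he
  rw [L_comm x, L_comm x]
  exact hL k l₁ l₂ x e e'

theorem L_lip_left (hL : Stmt_LIP) {k : ℕ} (x x' y : List (Fin k))
    (he : ∃ l₁ l₂ e e', x = l₁ ++ e :: l₂ ∧ x' = l₁ ++ e' :: l₂) :
    |(L x y : ℝ) - L x' y| ≤ 1 := by
  obtain ⟨l₁, l₂, e, e', rfl, rfl⟩ := he
  exact hL k l₁ l₂ y e e'

theorem Ex_abs_le {k : ℕ} (hk : 0 < k) (n : ℕ) (f g : List (Fin k) → ℝ) (c : ℝ)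
    (h : ∀ w, w.length = n → |f w - g w| ≤ c) : |Ex k n f - Ex k n g| ≤ c := by
  rw [← Ex_sub, abs_le]
  constructor
  · exact const_le_Ex hk fun w hw => (abs_le.mp (h w hw)).1
  · exact Ex_le_const hk fun w hw => (abs_le.mp (h w hw)).2

/-- Markov inequality for `Ex` -/
theorem Ex_markov {k : ℕ} (n : ℕ) (f : List (Fin k) → ℝ) {c : ℝ} (hc : 0 < c)
    (hf : ∀ w, w.length = n → 0 ≤ f w) :
    (Ex k n fun w => ind (¬ f w ≤ c)) ≤ (Ex k n f) / c := by
  have h1 : ∀ w : List (Fin k), w.length = n → ind (¬ f w ≤ c) ≤ (1 / c) * f w := by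
    intro w hw
    by_cases h : f w ≤ c
    · have : ind (¬ f w ≤ c) = 0 := by unfold ind; rw [if_neg (not_not.mpr h)]
      rw [this]
      have := hf w hw
      positivity
    · refine (ind_le_one' _).trans ?_
      rw [one_div, ← div_eq_inv_mul, le_div_iff₀ hc]
      linarith [not_le.mp h]
  refine (Ex_mono h1).trans (le_of_eq ?_)
  rw [Ex_const_mul]; ring

/-- the polynomial factors are absorbed -/
theorem ev_poly (A B c : ℝ) (hc : 0 < c) :
    ∀ᶠ s : ℕ in atTop, (A * s + B) ≤ Real.exp (c * s) := by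
  have h1 : Tendsto (fun x : ℝ => x ^ 1 * Real.exp (-x)) atTop (𝓝 0) :=
    Real.tendsto_pow_mul_exp_neg_atTop_nhds_zero 1
  have h2 : Tendsto (fun x : ℝ => x ^ 0 * Real.exp (-x)) atTop (𝓝 0) :=
    Real.tendsto_pow_mul_exp_neg_atTop_nhds_zero 0
  have h3 := (h1.const_mul (A / c)).add (h2.const_mul B)
  have h5 : Tendsto (fun s : ℕ => c * (s : ℝ)) atTop atTop :=
    tendsto_natCast_atTop_atTop.const_mul_atTop hc
  have h4 := h3.comp h5
  simp only [mul_zero, add_zero] at h4
  filter_upwards [h4.eventually_le_const one_pos] with s hs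
  simp only [Function.comp, pow_one, pow_zero, one_mul] at hs
  have h6 : (A * s + B) * Real.exp (-(c * s)) ≤ 1 := by
    refine le_trans (le_of_eq ?_) hs
    field_simp
  rw [Real.exp_neg, ← div_eq_mul_inv, div_le_one (Real.exp_pos _)] at h6
  exact h6

theorem Phi_sat_of_le {k : ℕ} (P : PhiFacts k) {n v : ℝ} (hn : 0 < n) (h : k * n ≤ v) :
    Phi k n v = n := by
  have h3 := P.hom n 1 (v / n) hn.le zero_le_one (by
    have : (0 : ℝ) ≤ k := Nat.cast_nonneg _
    have : 0 ≤ v := le_trans (by positivity) h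
    positivity)
  rw [mul_one, mul_div_cancel₀ _ hn.ne', P.sat (v / n) (by rwa [le_div_iff₀ hn]), mul_one] at h3
  exact h3

theorem Phi_zero_right {k : ℕ} (P : PhiFacts k) {n : ℝ} (hn : 0 ≤ n) : Phi k n 0 = 0 := by
  refine le_antisymm ?_ (P.nonneg _ _)
  rw [P.comm]
  exact P.le_left 0 n le_rfl hn

/-- joint probability of an atypical crossing -/
theorem badA_joint (hM : Stmt_MCD) (hL : Stmt_LIP) {k : ℕ} (hk : 2 ≤ k) (P : PhiFacts k) {n w : ℕ}
    (hn : 1 ≤ n) {ε₁ : ℝ} (hε : 0 < ε₁) :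
    (Ex k n fun u => Ex k w fun v => ind (BadA k n ε₁ u v)) ≤
      Real.exp (-((2 * ε₁ ^ 2 / (1 + k)) * n)) := by
  have hkn : 0 < k := by omega
  have hn0 : (0 : ℝ) < n := by exact_mod_cast hn
  rcases le_or_gt (k * n) w with h | h
  · have h1 : (Ex k n fun u => Ex k w fun v => ind (BadA k n ε₁ u v)) = 0 := by
      have h2 : ∀ u : List (Fin k), u.length = n → (Ex k w fun v => ind (BadA k n ε₁ u v)) = 0 := by
        intro u hu
        rw [← Ex_zero_fun (k := k) w]
        refine Ex_congr fun v hv => ?_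
        unfold ind; rw [if_neg]
        unfold BadA
        rw [hv, Phi_sat_of_le P hn0 (by exact_mod_cast h)]
        have h3 : (L u v : ℝ) ≤ n := by rw [← hu]; exact_mod_cast L_le_left u v
        have h4 : 0 < ε₁ * n := by positivity
        linarith
      rw [Ex_congr h2, Ex_zero_fun]
    rw [h1]; exact (Real.exp_pos _).le
  · have key := (hM k n w (fun u v => (L u v : ℝ)) 1 hkn one_pos
      (fun x x' y _ _ _ he => L_lip_left hL x x' y he)
      (fun x y y' _ _ _ he => L_lip_right hL x y y' he) (ε₁ * n) (by positivity)).1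
    have h1 : (Ex k n fun u => Ex k w fun v => ind (BadA k n ε₁ u v)) ≤
        (Ex k n fun x => Ex k w fun y =>
          ind ((Ex k n fun x => Ex k w fun y => (L x y : ℝ)) + ε₁ * n ≤ (L x y : ℝ))) := by
      refine Ex_mono fun u _ => Ex_mono fun v hv => ind_mono' fun h2 => ?_
      unfold BadA at h2
      rw [hv] at h2
      have h3 := P.F_le n w
      have h4 : (Ex k n fun x => Ex k w fun y => (L x y : ℝ)) = F k n w := rfl
      rw [h4]; linarith
    refine (h1.trans key).trans (Real.exp_le_exp.mpr ?_)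
    rw [one_pow, one_mul, neg_le_neg_iff]
    have h5 : (w : ℝ) ≤ k * n := by exact_mod_cast h.le
    have h6 : (0 : ℝ) < 1 + k := by positivity
    rw [le_div_iff₀ (by positivity)]
    have h7 : (n : ℝ) + w ≤ (1 + k) * n := by linarith
    calc 2 * ε₁ ^ 2 / (1 + k) * n * (n + w) ≤ 2 * ε₁ ^ 2 / (1 + k) * n * ((1 + k) * n) :=
          mul_le_mul_of_nonneg_left h7 (by positivity)
      _ = 2 * (ε₁ * n) ^ 2 := by field_simp

theorem Ex_count {k : ℕ} (hk : 0 < k) (o : Fin k) (n : ℕ) :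
    (Ex k n fun v => (v.count o : ℝ)) = n / k := by
  have hk0 : (k : ℝ) ≠ 0 := by positivity
  induction n with
  | zero => simp
  | succ n ih =>
    rw [Ex_succ]
    have h1 : ∀ c : Fin k, (Ex k n fun v => ((c :: v).count o : ℝ)) =
        n / k + if c = o then 1 else 0 := by
      intro c
      rw [← ih]
      have h2 : ∀ v : List (Fin k), v.length = n → ((c :: v).count o : ℝ) =
          (v.count o : ℝ) + if c = o then 1 else 0 := by
        intro v _
        rw [List.count_cons]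
        by_cases hc : c = o <;> simp [hc]
      rw [Ex_congr h2, Ex_add]
      congr 1
      split_ifs
      · exact Ex_const hk n 1
      · exact Ex_const hk n 0
    rw [Finset.sum_congr rfl fun c _ => h1 c, Finset.sum_add_distrib, Finset.sum_const,
      Finset.card_univ, Fintype.card_fin, nsmul_eq_mul, Finset.sum_ite_eq' Finset.univ o]
    simp only [Finset.mem_univ, if_true]
    push_cast
    field_simp

theorem count_lip {k : ℕ} (o : Fin k) (y y' : List (Fin k))
    (he : ∃ l₁ l₂ e e', y = l₁ ++ e :: l₂ ∧ y' = l₁ ++ e' :: l₂) :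
    |(y.count o : ℝ) - y'.count o| ≤ 1 := by
  obtain ⟨l₁, l₂, e, e', rfl, rfl⟩ := he
  rw [List.count_append, List.count_append, List.count_cons, List.count_cons]
  push_cast
  by_cases h1 : e = o <;> by_cases h2 : e' = o <;> simp [h1, h2]

end H53

open H53 in
theorem stmt_TUP (hM : Stmt_MCD) (hL : Stmt_LIP) : Stmt_TUP := by
  intro k C p q Pl Pu W B hB ε₁ hε
  have hk := W.hk
  have hkn : 0 < k := by omega
  set c : ℝ := 2 * ε₁ ^ 2 / (1 + k) with hc
  have hc0 : 0 < c := by positivity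
  refine ⟨c / 3, by positivity, fun Wc => ?_⟩
  filter_upwards [ev_poly (Wc : ℝ) 1 (c / 3) (by positivity), eventually_ge_atTop 1] with s hs hs1
  set n := B * s with hn
  have hn1 : 1 ≤ n := Nat.mul_pos (by omega) (by omega)
  have hsn : (s : ℝ) ≤ n := by
    have : s ≤ n := Nat.le_mul_of_pos_left s (by omega)
    exact_mod_cast this
  have h1 : (Ex k n fun u => ind (¬ TU k n (Wc * s) ε₁ (c / 3) u)) ≤
      ∑ w ∈ Finset.range (Wc * s + 1), Real.exp (-(c * n)) / Real.exp (-(c / 3 * n)) := by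
    have h2 : ∀ u : List (Fin k), u.length = n → ind (¬ TU k n (Wc * s) ε₁ (c / 3) u) ≤
        ∑ w ∈ Finset.range (Wc * s + 1), ind (¬ (Ex k w fun v => ind (BadA k n ε₁ u v)) ≤
          Real.exp (-(c / 3 * n))) := by
      intro u _
      refine le_trans (ind_mono' fun h => ?_) (ind_exists_le _ _)
      unfold TU at h
      push Not at h
      obtain ⟨w, hw, h3⟩ := h
      exact ⟨w, Finset.mem_range.mpr (by omega), not_le.mpr h3⟩
    refine (Ex_mono h2).trans ?_
    rw [Ex_finset_sum]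
    refine Finset.sum_le_sum fun w _ => ?_
    refine (Ex_markov n (fun u => Ex k w fun v => ind (BadA k n ε₁ u v)) (Real.exp_pos _)
      (fun u _ => Ex_nonneg fun v _ => ind_nonneg' _)).trans ?_
    exact div_le_div_of_nonneg_right (badA_joint hM hL hk W.phi hn1 hε) (Real.exp_pos _).le
  refine h1.trans ?_
  rw [Finset.sum_const, Finset.card_range, nsmul_eq_mul, ← Real.exp_sub]
  push_cast
  calc ((Wc : ℝ) * s + 1) * Real.exp (-(c * n) - -(c / 3 * n)) ≤
        Real.exp (c / 3 * s) * Real.exp (-(c * n) - -(c / 3 * n)) :=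
        mul_le_mul_of_nonneg_right hs (Real.exp_pos _).le
    _ ≤ Real.exp (-(c / 3 * s)) := by
        rw [← Real.exp_add]
        apply Real.exp_le_exp.mpr
        nlinarith

open H53 in
theorem stmt_FTYP (hM : Stmt_MCD) (hL : Stmt_LIP) : Stmt_FTYP := by
  intro k C p q Pl Pu W ε hε
  have hk := W.hk
  have hkn : 0 < k := by omega
  have hk0 : (0 : ℝ) < k := by exact_mod_cast hkn
  set c₀ : ℝ := min (1 / k) (ε ^ 2 / (4 * k)) with hc₀
  have hc0 : 0 < c₀ := lt_min (by positivity) (by positivity)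
  have hc1 : c₀ ≤ 1 / k := min_le_left _ _
  have hc2 : c₀ ≤ ε ^ 2 / (4 * k) := min_le_right _ _
  refine ⟨c₀ / 2, by positivity, ?_⟩
  -- the error of DEF
  have hdef : ∀ᶠ s : ℕ in atTop, C * √((2 + 2 * (k : ℝ)) * s) ≤ ε / 2 * s := by
    have h1 : Tendsto (fun s : ℕ => √(s : ℝ)) atTop atTop :=
      Real.tendsto_sqrt_atTop.comp tendsto_natCast_atTop_atTop
    filter_upwards [h1.eventually_ge_atTop (2 * C * √(2 + 2 * (k : ℝ)) / ε)] with s hs
    rw [Real.sqrt_mul (by positivity)]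
    rw [div_le_iff₀ hε] at hs
    have h2 : √(s : ℝ) * √(s : ℝ) = s := Real.mul_self_sqrt (Nat.cast_nonneg s)
    have h3 : 0 ≤ √(s : ℝ) := Real.sqrt_nonneg _
    nlinarith [mul_le_mul_of_nonneg_right hs h3]
  filter_upwards [ev_poly (6 * k) 4 (c₀ / 2) (by positivity), eventually_ge_atTop 1, hdef]
    with s hs hs1 hdef
  intro o
  have hs0 : (0 : ℝ) < s := by exact_mod_cast hs1
  set n := 2 * k * s with hn
  have hn0 : (0 : ℝ) < n := by rw [hn]; push_cast; positivity
  have hnr : (n : ℝ) = 2 * k * s := by rw [hn]; push_cast; ring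
  set δ := Real.exp (-(c₀ * s)) with hδ
  -- first event
  have e1 : (Ex k n fun v => ind ((v.count o : ℝ) ≤ s)) ≤ δ := by
    have h1 := (mcd1 hM (b := n) hkn (fun v => (v.count o : ℝ))
      (fun y y' _ _ he => count_lip o y y' he) (t := (s : ℝ)) hs0.le).2
    rw [Ex_count hkn] at h1
    have h2 : (n : ℝ) / k - s = s := by rw [hnr]; field_simp; ring
    rw [h2] at h1
    refine h1.trans (Real.exp_le_exp.mpr ?_)
    rw [neg_le_neg_iff, hnr]
    have h3 : 2 * (s : ℝ) ^ 2 / (2 * k * s) = 1 / k * s := by field_simp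
    rw [h3]
    exact mul_le_mul_of_nonneg_right hc1 hs0.le
  -- second event
  have e2 : ∀ c : ℕ, 1 ≤ c → c ≤ n → (Ex k c fun v => ind ((c : ℝ) / k + ε * s ≤ (v.count o : ℝ)))
      ≤ δ := by
    intro c hc1' hcn
    have hc0' : (0 : ℝ) < c := by exact_mod_cast hc1'
    have hcn' : (c : ℝ) ≤ 2 * k * s := by rw [← hnr]; exact_mod_cast hcn
    have h1 := (mcd1 hM (b := c) hkn (fun v => (v.count o : ℝ))
      (fun y y' _ _ he => count_lip o y y' he) (t := ε * s) (by positivity)).1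
    rw [Ex_count hkn] at h1
    refine h1.trans (Real.exp_le_exp.mpr ?_)
    rw [neg_le_neg_iff, le_div_iff₀ hc0']
    calc c₀ * s * c ≤ ε ^ 2 / (4 * k) * s * (2 * k * s) :=
          mul_le_mul (mul_le_mul_of_nonneg_right hc2 hs0.le) hcn' hc0'.le (by positivity)
      _ = ε ^ 2 * s ^ 2 / 2 := by field_simp; ring
      _ ≤ 2 * (ε * s) ^ 2 := by nlinarith [sq_nonneg (ε * s)]
  -- third and fourth events
  have e3 : ∀ (a c : ℕ), (a : ℝ) ≤ 2 * s → 1 ≤ c → c ≤ n →
      (Ex k c fun v => ind (¬ (Phi k a c - ε * s ≤ (Ex k a fun r => (L r v : ℝ))))) ≤ δ := by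
    intro a c ha hc1' hcn
    have hc0' : (0 : ℝ) < c := by exact_mod_cast hc1'
    have hcn' : (c : ℝ) ≤ 2 * k * s := by rw [← hnr]; exact_mod_cast hcn
    have h1 := (mcd1 hM (b := c) hkn (fun v => Ex k a fun r => (L r v : ℝ))
      (fun y y' _ _ he => Ex_abs_le hkn a _ _ 1 fun r _ => L_lip_right hL r y y' he)
      (t := ε / 2 * s) (by positivity)).2
    have h2 : (Ex k c fun v => Ex k a fun r => (L r v : ℝ)) = F k a c := by
      rw [Ex_comm]; rfl
    rw [h2] at h1
    have h3 : Phi k a c - F k a c ≤ ε / 2 * s := by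
      refine (W.DEF a c).trans (le_trans ?_ hdef)
      apply mul_le_mul_of_nonneg_left _ W.C0.le
      apply Real.sqrt_le_sqrt
      nlinarith
    refine le_trans (le_trans (Ex_mono fun v _ => ind_mono' fun h => ?_) h1)
      (Real.exp_le_exp.mpr ?_)
    · have := not_le.mp h
      linarith
    · rw [neg_le_neg_iff, le_div_iff₀ hc0']
      calc c₀ * s * c ≤ ε ^ 2 / (4 * k) * s * (2 * k * s) :=
            mul_le_mul (mul_le_mul_of_nonneg_right hc2 hs0.le) hcn' hc0'.le (by positivity)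
        _ = 2 * (ε / 2 * s) ^ 2 := by field_simp; ring
  -- union
  have hpt : ∀ v : List (Fin k), v.length = n → ind (¬ Typ k s o ε v) ≤
      ind ((v.count o : ℝ) ≤ s) + ∑ c ∈ Finset.range (n + 1), if 1 ≤ c ∧ c ≤ n then
        (ind ((c : ℝ) / k + ε * s ≤ (((v.drop 0).take c).count o : ℝ)) +
        ind (¬ (Phi k s c - ε * s ≤ (Ex k s fun r => (L r ((v.drop 0).take c) : ℝ)))) +
        ind (¬ (Phi k ((2 * s : ℕ) : ℝ) c - ε * s ≤
          (Ex k (2 * s) fun r => (L r ((v.drop 0).take c) : ℝ))))) else 0 := by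
    intro v hv
    have h1 : ind (¬ Typ k s o ε v) ≤ ind (((v.count o : ℝ) ≤ s) ∨
        ∃ c ∈ Finset.range (n + 1), (1 ≤ c ∧ c ≤ n) ∧
        (((c : ℝ) / k + ε * s ≤ (((v.drop 0).take c).count o : ℝ) ∨
        ¬ (Phi k s c - ε * s ≤ (Ex k s fun r => (L r ((v.drop 0).take c) : ℝ)))) ∨
        ¬ (Phi k ((2 * s : ℕ) : ℝ) c - ε * s ≤
          (Ex k (2 * s) fun r => (L r ((v.drop 0).take c) : ℝ))))) := by
      refine ind_mono' fun h => ?_
      by_contra hne
      rw [not_or] at hne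
      obtain ⟨hne1, hne2⟩ := hne
      apply h
      refine ⟨hv, ?_, fun c hc => ?_⟩
      · have := not_le.mp hne1
        exact_mod_cast this.le
      · rcases Nat.eq_zero_or_pos c with hc' | hc'
        · subst hc'
          have h2 : Phi k (s : ℝ) ((0 : ℕ) : ℝ) = 0 := by
            rw [Nat.cast_zero]; exact Phi_zero_right W.phi hs0.le
          have h3 : Phi k (2 * (s : ℝ)) ((0 : ℕ) : ℝ) = 0 := by
            rw [Nat.cast_zero]; exact Phi_zero_right W.phi (by positivity)
          rw [h2, h3]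
          simp only [List.take_zero, List.count_nil, L_nil_right, Nat.cast_zero, zero_div,
            zero_add, zero_sub]
          rw [Ex_zero_fun, Ex_zero_fun]
          have h4 : 0 < ε * s := by positivity
          exact ⟨h4.le, by linarith, by linarith⟩
        · have h2 : ¬ (((c : ℝ) / k + ε * s ≤ (((v.drop 0).take c).count o : ℝ) ∨
            ¬ (Phi k s c - ε * s ≤ (Ex k s fun r => (L r ((v.drop 0).take c) : ℝ)))) ∨
            ¬ (Phi k ((2 * s : ℕ) : ℝ) c - ε * s ≤
              (Ex k (2 * s) fun r => (L r ((v.drop 0).take c) : ℝ)))) := fun h3 =>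
            hne2 ⟨c, Finset.mem_range.mpr (by omega), ⟨hc', hc⟩, h3⟩
          rw [not_or, not_or, not_not, not_not, List.drop_zero] at h2
          obtain ⟨⟨h3, h4⟩, h5⟩ := h2
          push_cast at h5
          exact ⟨(not_le.mp h3).le, h4, h5⟩
    refine h1.trans ((ind_or_le _ _).trans (add_le_add le_rfl ?_))
    refine (ind_exists_le _ _).trans (Finset.sum_le_sum fun c _ => ?_)
    split_ifs with h2
    · refine le_trans (ind_mono' fun h => h.2) ?_
      exact (ind_or_le _ _).trans (add_le_add (ind_or_le _ _) le_rfl)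
    · unfold ind; rw [if_neg fun h => h2 h.1]
  refine (Ex_mono hpt).trans ?_
  rw [Ex_add, Ex_finset_sum]
  have hsum : ∀ c ∈ Finset.range (n + 1), (Ex k n fun v => if 1 ≤ c ∧ c ≤ n then
        (ind ((c : ℝ) / k + ε * s ≤ (((v.drop 0).take c).count o : ℝ)) +
        ind (¬ (Phi k s c - ε * s ≤ (Ex k s fun r => (L r ((v.drop 0).take c) : ℝ)))) +
        ind (¬ (Phi k ((2 * s : ℕ) : ℝ) c - ε * s ≤
          (Ex k (2 * s) fun r => (L r ((v.drop 0).take c) : ℝ))))) else 0) ≤ 3 * δ := by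
    intro c _
    split_ifs with h
    · rw [Ex_add, Ex_add]
      have h1 := e2 c h.1 h.2
      have h2 := e3 s c (by linarith) h.1 h.2
      have h3 := e3 (2 * s) c (by push_cast; exact le_rfl) h.1 h.2
      rw [Ex_window hkn 0 c n (by omega) (fun v => ind ((c : ℝ) / k + ε * s ≤ (v.count o : ℝ))),
        Ex_window hkn 0 c n (by omega)
          (fun v => ind (¬ (Phi k s c - ε * s ≤ (Ex k s fun r => (L r v : ℝ))))),
        Ex_window hkn 0 c n (by omega)
          (fun v => ind (¬ (Phi k ((2 * s : ℕ) : ℝ) c - ε * s ≤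
            (Ex k (2 * s) fun r => (L r v : ℝ)))))]
      linarith
    · rw [Ex_zero_fun]; positivity
  have h1 := Finset.sum_le_sum hsum
  rw [Finset.sum_const, Finset.card_range, nsmul_eq_mul] at h1
  calc _ ≤ δ + ((n + 1 : ℕ) : ℝ) * (3 * δ) := add_le_add e1 h1
    _ = (6 * k * s + 4) * δ := by rw [Nat.cast_add, hnr]; push_cast; ring
    _ ≤ Real.exp (c₀ / 2 * s) * δ := mul_le_mul_of_nonneg_right hs (Real.exp_pos _).le
    _ = Real.exp (-(c₀ / 2 * s)) := by
        rw [hδ, ← Real.exp_add]; congr 1; ring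

end Pool.Agent.LCSV
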