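import Pool.Agent.Work.MP_bec1e1_lv_helper15.LUInterface

/-!
# BLK: blow-up in a product space
-/

set_option autoImplicit false
set_option maxHeartbeats 400000

open Filter Topology
open scoped BigOperators

namespace Pool.Agent.LCSV

open Pool.Agent.LCSE

namespace H53B

open MeasureTheory ProbabilityTheory in
/-- Hoeffding's lemma for finite weights -/
theorem hoeffding_fin {ι : Type} [Fintype ι] (p h : ι → ℝ) (hp : ∀ i, 0 ≤ p i)
    (h1 : ∑ i, p i = 1) (a b : ℝ) (hab : ∀ i, h i ∈ Set.Icc a b) (t : ℝ) :
    ∑ i, p i * Real.exp (t * (h i - ∑ j, p j * h j)) ≤ Real.exp (t ^ 2 * (b - a) ^ 2 / 8) := by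
  classical
  let : MeasurableSpace ι := ⊤
  have : MeasurableSingletonClass ι := ⟨fun _ => trivial⟩
  have hs : ∑ i, ENNReal.ofReal (p i) = 1 := by
    rw [← ENNReal.ofReal_sum_of_nonneg (fun i _ => hp i), h1, ENNReal.ofReal_one]
  set P := PMF.ofFintype (fun i => ENNReal.ofReal (p i)) hs with hP
  have hint : ∀ f : ι → ℝ, ∫ i, f i ∂P.toMeasure = ∑ i, p i * f i := by
    intro f
    rw [PMF.integral_eq_sum]
    refine Finset.sum_congr rfl fun i _ => ?_
    rw [hP, PMF.ofFintype_apply, ENNReal.toReal_ofReal (hp i), smul_eq_mul]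
  have hH := hasSubgaussianMGF_of_mem_Icc (μ := P.toMeasure) (X := h) (a := a) (b := b)
    (measurable_of_countable h).aemeasurable (Filter.Eventually.of_forall hab)
  have h2 := hH.mgf_le t
  rw [mgf, hint] at h2
  simp only [hint] at h2
  refine h2.trans (le_of_eq ?_)
  congr 1
  push_cast
  rw [Real.norm_eq_abs, div_pow, sq_abs]
  ring

theorem ind_mono' {P Q : Prop} (h : P → Q) : ind P ≤ ind Q := by
  unfold ind
  by_cases hP : P
  · rw [if_pos hP, if_pos (h hP)]
  · rw [if_neg hP]; split_ifs <;> norm_num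

section
variable {ι C : Type} [Fintype ι] [DecidableEq ι] [Fintype C] {S : C → ℝ}

theorem W_nonneg (hS : ∀ c, 0 ≤ S c) (c : ι → C) : 0 ≤ ∏ i, S (c i) :=
  Finset.prod_nonneg fun i _ => hS _

theorem PW_mono (hS : ∀ c, 0 ≤ S c) {f g : (ι → C) → ℝ} (h : ∀ c, f c ≤ g c) :
    PW (fun _ : ι => S) f ≤ PW (fun _ : ι => S) g :=
  Finset.sum_le_sum fun c _ => mul_le_mul_of_nonneg_left (h c) (W_nonneg hS c)

theorem PW_const_mul (a : ℝ) (f : (ι → C) → ℝ) :
    PW (fun _ : ι => S) (fun c => a * f c) = a * PW (fun _ : ι => S) f := by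
  unfold PW
  rw [Finset.mul_sum]
  exact Finset.sum_congr rfl fun c _ => by ring

theorem PW_one (h1 : ∑ c, S c = 1) : PW (fun _ : ι => S) (fun _ => 1) = 1 := by
  unfold PW
  simp only [mul_one]
  have h := (Finset.prod_univ_sum (fun _ : ι => (Finset.univ : Finset C)) (fun _ c => S c)).symm
  rw [Fintype.piFinset_univ] at h
  rw [h]; simp [h1]

theorem PW_const (h1 : ∑ c, S c = 1) (a : ℝ) : PW (fun _ : ι => S) (fun _ => a) = a := by
  have h := PW_const_mul (ι := ι) (S := S) a (fun _ => 1)
  simp only [mul_one] at h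
  rw [h, PW_one h1, mul_one]

/-- resampling of one coordinate -/
theorem PW_resample (h1 : ∑ c, S c = 1) (i : ι) (g : (ι → C) → ℝ) :
    PW (fun _ : ι => S) (fun c => ∑ x, S x * g (Function.update c i x)) =
      PW (fun _ : ι => S) g := by
  classical
  unfold PW
  have e1 : ∀ c : ι → C, (∏ j, S (c j)) * ∑ x, S x * g (Function.update c i x) =
      ∑ x, ((∏ j, S (c j)) * S x) * g (Function.update c i x) := by
    intro c; rw [Finset.mul_sum]; exact Finset.sum_congr rfl fun x _ => by ring
  rw [Finset.sum_congr rfl fun c _ => e1 c, ← Finset.sum_product']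
  have hw : ∀ (c : ι → C) (x : C), (∏ j, S (c j)) * S x =
      (∏ j, S (Function.update c i x j)) * S (c i) := by
    intro c x
    have h2 : (fun j => S (Function.update c i x j)) =
        Function.update (fun j => S (c j)) i (S x) := by
      funext j
      by_cases hj : j = i
      · subst hj; simp
      · simp [Function.update_of_ne hj]
    rw [h2, Finset.prod_update_of_mem (Finset.mem_univ i),
      ← Finset.prod_erase_mul Finset.univ (fun j => S (c j)) (Finset.mem_univ i),
      Finset.sdiff_singleton_eq_erase]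
    ring
  let φ : (ι → C) × C → (ι → C) × C := fun p => (Function.update p.1 i p.2, p.1 i)
  have hφ : ∀ p, φ (φ p) = p := by
    rintro ⟨c, x⟩
    simp only [φ, Function.update_idem, Function.update_self, Function.update_eq_self]
  have e2 : ∑ p ∈ (Finset.univ : Finset (ι → C)) ×ˢ (Finset.univ : Finset C),
      ((∏ j, S (p.1 j)) * S p.2) * g (Function.update p.1 i p.2) =
      ∑ p ∈ (Finset.univ : Finset (ι → C)) ×ˢ (Finset.univ : Finset C),
      ((∏ j, S (p.1 j)) * S p.2) * g p.1 := by
    refine Finset.sum_nbij' φ φ (fun _ _ => by simp) (fun _ _ => by simp)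
      (fun p _ => hφ p) (fun p _ => hφ p) ?_
    rintro ⟨c, x⟩ _
    simp only [φ]
    rw [hw c x]
  rw [e2, Finset.sum_product]
  refine Finset.sum_congr rfl fun c _ => ?_
  simp only
  rw [← Finset.sum_mul, ← Finset.mul_sum, h1, mul_one]

/-- moment generating function -/
theorem PW_mgf (hS : ∀ c, 0 ≤ S c) (h1 : ∑ c, S c = 1) (Λ : Finset ι) :
    ∀ f : (ι → C) → ℝ, (∀ c c' : ι → C, (∀ i ∈ Λ, c i = c' i) → f c = f c') →
    (∀ i ∈ Λ, ∀ (c : ι → C) (x y : C),
      |f (Function.update c i x) - f (Function.update c i y)| ≤ 1) →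
    ∀ t : ℝ, PW (fun _ : ι => S) (fun c => Real.exp (t * (f c - PW (fun _ : ι => S) f))) ≤
      Real.exp (t ^ 2 * Λ.card / 8) := by
  classical
  induction Λ using Finset.induction_on with
  | empty =>
    intro f hdep _ t
    have hconst : ∀ c c' : ι → C, f c = f c' := fun c c' => hdep c c' fun i hi => by simp at hi
    have h2 : ∀ c : ι → C, PW (fun _ : ι => S) f = f c := by
      intro c
      have : f = fun _ => f c := by funext c'; exact hconst c' c
      rw [this]; exact PW_const h1 _
    have h3 : (fun c : ι → C => Real.exp (t * (f c - PW (fun _ : ι => S) f))) = fun _ => 1 := by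
      funext c
      rw [h2 c]; simp
    rw [h3, PW_one h1]; simp
  | insert i Λ hi ih =>
    intro f hdep hlip t
    set f' : (ι → C) → ℝ := fun c => ∑ x, S x * f (Function.update c i x) with hf'
    have hm : PW (fun _ : ι => S) f' = PW (fun _ : ι => S) f := PW_resample h1 i f
    have hdep' : ∀ c c' : ι → C, (∀ j ∈ Λ, c j = c' j) → f' c = f' c' := by
      intro c c' h
      refine Finset.sum_congr rfl fun x _ => ?_
      rw [hdep (Function.update c i x) (Function.update c' i x)]
      intro j hj
      by_cases hji : j = i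
      · subst hji; simp
      · rw [Function.update_of_ne hji, Function.update_of_ne hji]
        exact h j ((Finset.mem_insert.mp hj).resolve_left hji)
    have hlip' : ∀ j ∈ Λ, ∀ (c : ι → C) (x y : C),
        |f' (Function.update c j x) - f' (Function.update c j y)| ≤ 1 := by
      intro j hj c x y
      have hji : j ≠ i := fun h => hi (h ▸ hj)
      simp only [hf']
      rw [← Finset.sum_sub_distrib]
      calc |∑ z, (S z * f (Function.update (Function.update c j x) i z) -
            S z * f (Function.update (Function.update c j y) i z))| ≤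
          ∑ z, |S z * f (Function.update (Function.update c j x) i z) -
            S z * f (Function.update (Function.update c j y) i z)| :=
            Finset.abs_sum_le_sum_abs _ _
        _ ≤ ∑ z, S z := by
            refine Finset.sum_le_sum fun z _ => ?_
            rw [← mul_sub, abs_mul, abs_of_nonneg (hS z),
              Function.update_comm hji, Function.update_comm hji]
            have := hlip j (Finset.mem_insert_of_mem hj) (Function.update c i z) x y
            calc S z * _ ≤ S z * 1 := mul_le_mul_of_nonneg_left this (hS z)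
              _ = S z := mul_one _
        _ = 1 := h1
    have key := ih f' hdep' hlip' t
    rw [hm] at key
    set m := PW (fun _ : ι => S) f with hmdef
    rw [← PW_resample h1 i]
    have hpt : ∀ c : ι → C, (∑ x, S x * Real.exp (t * (f (Function.update c i x) - m))) ≤
        Real.exp (t ^ 2 / 8) * Real.exp (t * (f' c - m)) := by
      intro c
      have hne : Nonempty C := by
        by_contra hne
        rw [not_nonempty_iff] at hne
        simp at h1
      obtain ⟨x₀, -, hx₀⟩ := Finset.exists_min_image (Finset.univ : Finset C)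
        (fun x => f (Function.update c i x)) ⟨Classical.arbitrary _, Finset.mem_univ _⟩
      have hmem : ∀ x, f (Function.update c i x) ∈
          Set.Icc (f (Function.update c i x₀)) (f (Function.update c i x₀) + 1) := by
        intro x
        refine ⟨hx₀ x (Finset.mem_univ _), ?_⟩
        have := (abs_le.mp (hlip i (Finset.mem_insert_self _ _) c x x₀)).2
        linarith
      have h2 := hoeffding_fin S (fun x => f (Function.update c i x)) hS h1 _ _ hmem t
      have h3 : (∑ x, S x * Real.exp (t * (f (Function.update c i x) - m))) =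
          (∑ x, S x * Real.exp (t * (f (Function.update c i x) - f' c))) *
            Real.exp (t * (f' c - m)) := by
        rw [Finset.sum_mul]
        refine Finset.sum_congr rfl fun x _ => ?_
        rw [mul_assoc, ← Real.exp_add]
        congr 2; ring
      rw [h3]
      refine mul_le_mul_of_nonneg_right (h2.trans (le_of_eq ?_)) (Real.exp_pos _).le
      congr 1; ring
    refine (PW_mono hS hpt).trans ?_
    rw [PW_const_mul]
    calc Real.exp (t ^ 2 / 8) * PW (fun _ : ι => S) (fun c => Real.exp (t * (f' c - m))) ≤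
          Real.exp (t ^ 2 / 8) * Real.exp (t ^ 2 * Λ.card / 8) :=
          mul_le_mul_of_nonneg_left key (Real.exp_pos _).le
      _ = Real.exp (t ^ 2 * (insert i Λ).card / 8) := by
          rw [← Real.exp_add, Finset.card_insert_of_notMem hi]; congr 1; push_cast; ring

/-- tails -/
theorem PW_tail (hS : ∀ c, 0 ≤ S c) (h1 : ∑ c, S c = 1) (Λ : Finset ι) (hΛ : 0 < Λ.card)
    (f : (ι → C) → ℝ) (hdep : ∀ c c' : ι → C, (∀ i ∈ Λ, c i = c' i) → f c = f c')
    (hlip : ∀ i ∈ Λ, ∀ (c : ι → C) (x y : C),
      |f (Function.update c i x) - f (Function.update c i y)| ≤ 1)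
    {s : ℝ} (hs : 0 ≤ s) :
    PW (fun _ : ι => S) (fun c => ind (PW (fun _ : ι => S) f + s ≤ f c)) ≤
      Real.exp (-(2 * s ^ 2 / Λ.card)) ∧
    PW (fun _ : ι => S) (fun c => ind (f c ≤ PW (fun _ : ι => S) f - s)) ≤
      Real.exp (-(2 * s ^ 2 / Λ.card)) := by
  have hn : (0 : ℝ) < Λ.card := by exact_mod_cast hΛ
  set m := PW (fun _ : ι => S) f with hm
  have gen : ∀ (t : ℝ) (E : (ι → C) → Prop), (∀ c, E c → 4 * s ^ 2 / Λ.card ≤ t * (f c - m)) →
      t ^ 2 = (4 * s / Λ.card) ^ 2 → PW (fun _ : ι => S) (fun c => ind (E c)) ≤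
      Real.exp (-(2 * s ^ 2 / Λ.card)) := by
    intro t E hE ht
    have h2 := PW_mgf hS h1 Λ f hdep hlip t
    have h3 : ∀ c, ind (E c) ≤ Real.exp (-(4 * s ^ 2 / Λ.card)) * Real.exp (t * (f c - m)) := by
      intro c
      by_cases hc : E c
      · have : ind (E c) = 1 := by unfold ind; rw [if_pos hc]
        rw [this, ← Real.exp_add]
        exact Real.one_le_exp (by linarith [hE c hc])
      · have : ind (E c) = 0 := by unfold ind; rw [if_neg hc]
        rw [this]; positivity
    refine (PW_mono hS h3).trans ?_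
    rw [PW_const_mul]
    calc _ ≤ Real.exp (-(4 * s ^ 2 / Λ.card)) * Real.exp (t ^ 2 * Λ.card / 8) :=
          mul_le_mul_of_nonneg_left h2 (Real.exp_pos _).le
      _ = Real.exp (-(2 * s ^ 2 / Λ.card)) := by
          rw [← Real.exp_add, ht]; congr 1; field_simp; ring
  constructor
  · refine gen (4 * s / Λ.card) _ (fun c hc => ?_) rfl
    have : 4 * s ^ 2 / Λ.card = 4 * s / Λ.card * s := by ring
    rw [this]
    exact mul_le_mul_of_nonneg_left (by linarith) (by positivity)
  · refine gen (-(4 * s / Λ.card)) _ (fun c hc => ?_) (by ring)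
    have : 4 * s ^ 2 / Λ.card = 4 * s / Λ.card * s := by ring
    rw [this, neg_mul, ← mul_neg]
    exact mul_le_mul_of_nonneg_left (by linarith) (by positivity)

end

end H53B

open H53B in
theorem stmt_BLK : Stmt_BLK := by
  intro ι C _ _ _ _ S Λ A δ h hS h1 hdep hδ hδ1 hA hΛ hh
  have hn : (0 : ℝ) < Λ.card := by exact_mod_cast hΛ
  obtain ⟨c₀, hc₀⟩ : ∃ c₀, A c₀ := by
    by_contra hne
    push Not at hne
    have h2 : (fun c : ι → C => ind (A c)) = fun _ => 0 := by
      funext c; unfold ind; rw [if_neg (hne c)]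
    rw [h2, PW_const h1] at hA
    linarith
  set Sd : (ι → C) → Set ℕ := fun c => {m | ∃ c', A c' ∧ dH Λ c c' = m} with hSd
  have hSne : ∀ c, (Sd c).Nonempty := fun c => ⟨_, c₀, hc₀, rfl⟩
  set d : (ι → C) → ℕ := fun c => sInf (Sd c) with hd
  have hdmem : ∀ c, d c ∈ Sd c := fun c => Nat.sInf_mem (hSne c)
  have hdle : ∀ c m, m ∈ Sd c → d c ≤ m := fun c m hm => Nat.sInf_le hm
  have hdA : ∀ c, A c → d c = 0 := by
    intro c hc
    have h2 : dH Λ c c = 0 := by unfold dH; simp
    have := hdle c 0 ⟨c, hc, h2⟩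
    omega
  have hcongr : ∀ c c' e : ι → C, (∀ i ∈ Λ, c i = c' i) → dH Λ c e = dH Λ c' e := by
    intro c c' e he
    unfold dH
    congr 1
    exact Finset.filter_congr fun i hi => by rw [he i hi]
  have hd1 : ∀ c c' : ι → C, (∀ i ∈ Λ, c i = c' i) → (d c : ℝ) = d c' := by
    intro c c' he
    have : Sd c = Sd c' := by
      ext m
      simp only [hSd, Set.mem_setOf_eq]
      constructor
      · rintro ⟨e, h2, h3⟩; exact ⟨e, h2, by rw [← hcongr c c' e he]; exact h3⟩
      · rintro ⟨e, h2, h3⟩; exact ⟨e, h2, by rw [hcongr c c' e he]; exact h3⟩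
    simp only [hd, this]
  have hstep : ∀ i (c : ι → C) (x y : C),
      d (Function.update c i x) ≤ d (Function.update c i y) + 1 := by
    intro i c x y
    obtain ⟨e, h2, h3⟩ := hdmem (Function.update c i y)
    have h4 := hdle (Function.update c i x) _ ⟨e, h2, rfl⟩
    have h5 : dH Λ (Function.update c i x) e ≤ dH Λ (Function.update c i y) e + 1 := by
      unfold dH
      refine (Finset.card_le_card (t := insert i (Λ.filter fun j =>
        Function.update c i y j ≠ e j)) ?_).trans (Finset.card_insert_le _ _)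
      intro j hj
      rw [Finset.mem_filter] at hj
      rw [Finset.mem_insert, Finset.mem_filter]
      by_cases hji : j = i
      · exact Or.inl hji
      · right
        refine ⟨hj.1, ?_⟩
        have := hj.2
        rwa [Function.update_of_ne hji] at this ⊢
    omega
  have hlip : ∀ i ∈ Λ, ∀ (c : ι → C) (x y : C),
      |(d (Function.update c i x) : ℝ) - d (Function.update c i y)| ≤ 1 := by
    intro i _ c x y
    have h2 := hstep i c x y
    have h3 := hstep i c y x
    have h2' : (d (Function.update c i x) : ℝ) ≤ d (Function.update c i y) + 1 := by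
      exact_mod_cast h2
    have h3' : (d (Function.update c i y) : ℝ) ≤ d (Function.update c i x) + 1 := by
      exact_mod_cast h3
    rw [abs_le]; constructor <;> linarith
  set m : ℝ := PW (fun _ : ι => S) (fun c => (d c : ℝ)) with hm
  have hm0 : 0 ≤ m := by
    have := PW_mono (ι := ι) hS (f := fun _ => 0) (g := fun c => (d c : ℝ))
      fun c => Nat.cast_nonneg _
    rwa [PW_const h1] at this
  have h2 : δ ≤ Real.exp (-(2 * m ^ 2 / Λ.card)) := by
    refine hA.trans (le_trans (PW_mono hS fun c => ind_mono' fun hc => ?_)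
      (PW_tail hS h1 Λ hΛ (fun c => (d c : ℝ)) hd1 hlip hm0).2)
    rw [← hm, hdA c hc]; simp
  have h3 : m ≤ √(Λ.card * Real.log (1 / δ) / 2) := by
    apply Real.le_sqrt_of_sq_le
    have h4 := Real.log_le_log hδ h2
    rw [Real.log_exp] at h4
    rw [one_div, Real.log_inv]
    have h5 : 2 * m ^ 2 / Λ.card ≤ - Real.log δ := by linarith
    rw [div_le_iff₀ hn] at h5
    linarith
  refine le_trans (PW_mono hS fun c => ind_mono' fun hc => ?_)
    (PW_tail hS h1 Λ hΛ (fun c => (d c : ℝ)) hd1 hlip
      (s := h - √(Λ.card * Real.log (1 / δ) / 2)) (by linarith)).1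
  rw [← hm]
  have h6 : h < d c := by
    by_contra hne
    obtain ⟨e, h7, h8⟩ := hdmem c
    exact hc ⟨e, h7, by rw [h8]; exact not_lt.mp hne⟩
  have h7 : (h : ℝ) ≤ d c := by exact_mod_cast h6.le
  linarith

end Pool.Agent.LCSV
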