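import Pool.Agent.Work.MP_bec1e1_lv_helper15.Tools0

/-!
# LC: local comparison
-/

set_option autoImplicit false
set_option maxHeartbeats 400000

open Filter Topology
open scoped BigOperators

namespace Pool.Agent.LCSV

open Pool.Agent.LCSE

namespace H53

variable {k : ℕ}

theorem Phi_conc (P : PhiFacts k) {t a b a' b' : ℝ} (ht : 0 ≤ t) (ht1 : t ≤ 1) (ha : 0 ≤ a)
    (hb : 0 ≤ b) (ha' : 0 ≤ a') (hb' : 0 ≤ b') :
    t * Phi k a b + (1 - t) * Phi k a' b' ≤ Phi k (t * a + (1 - t) * a') (t * b + (1 - t) * b') := by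
  have h1 : 0 ≤ 1 - t := by linarith
  rw [← P.hom t a b ht ha hb, ← P.hom (1 - t) a' b' h1 ha' hb']
  exact P.superadd _ _ _ _ (by positivity) (by positivity) (by positivity) (by positivity)

theorem Phi_lip_right (P : PhiFacts k) {a b b' : ℝ} (ha : 0 ≤ a) (hb : 0 ≤ b) (hb' : 0 ≤ b') :
    |Phi k a b - Phi k a b'| ≤ |b - b'| := by
  have h : ∀ x y : ℝ, 0 ≤ x → x ≤ y → |Phi k a x - Phi k a y| ≤ |x - y| := by
    intro x y hx hxy
    have h1 := P.mono a a x y le_rfl hxy
    have h2 := P.lip x a (y - x) hx ha (by linarith)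
    rw [P.comm x a, P.comm (x + (y - x)) a, add_sub_cancel] at h2
    rw [abs_sub_comm (Phi k a x), abs_of_nonneg (by linarith), abs_sub_comm x, abs_of_nonneg
      (by linarith)]
    linarith
  rcases le_total b b' with hbb | hbb
  · exact h b b' hb hbb
  · rw [abs_sub_comm, abs_sub_comm b]; exact h b' b hb' hbb

theorem Phi_contOn (P : PhiFacts k) {a : ℝ} (ha : 0 ≤ a) :
    ContinuousOn (fun b => Phi k a b) (Set.Ici 0) := by
  have h : LipschitzOnWith 1 (fun b => Phi k a b) (Set.Ici 0) := by
    refine LipschitzOnWith.of_dist_le_mul fun x hx y hy => ?_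
    rw [Real.dist_eq, Real.dist_eq]
    simpa using Phi_lip_right P ha hx hy
  exact h.continuousOn

/-- no gain from additional rows would mean saturation -/
theorem Phi_strict_row (P : PhiFacts k) {a v : ℝ} (ha : 0 ≤ a) (hv : 0 < v)
    (h : a + 1 < k * v) : Phi k a v < Phi k (a + 1) v := by
  by_contra hne
  have hne' : Phi k (a + 1) v ≤ Phi k a v := not_lt.mp hne
  have hk : (0 : ℝ) < k * v := by linarith
  -- values
  have h1 : Phi k (k * v) v = v := by
    have h2 := P.hom v k 1 hv.le (Nat.cast_nonneg k) zero_le_one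
    rw [mul_one, P.comm k 1, P.sat k le_rfl, mul_one] at h2
    rw [mul_comm]; exact h2
  have h2 : Phi k (a + 1) v < v := by
    have h3 := P.hom v ((a + 1) / v) 1 hv.le (by positivity) zero_le_one
    rw [mul_one, mul_div_cancel₀ _ hv.ne', P.comm ((a + 1) / v) 1] at h3
    have h4 := P.notsat ((a + 1) / v) (by positivity) (by rw [div_lt_iff₀ hv]; exact h)
    rw [h3]
    calc v * Phi k 1 ((a + 1) / v) < v * 1 := by exact mul_lt_mul_of_pos_left h4 hv
      _ = v := mul_one v
  set t : ℝ := 1 / (k * v - a) with ht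
  have h5 : 0 < k * v - a := by linarith
  have ht0 : 0 < t := by positivity
  have ht1 : t ≤ 1 := by rw [ht, div_le_one h5]; linarith
  have h6 := Phi_conc P (t := 1 - t) (a := a) (b := v) (a' := k * v) (b' := v) (by linarith)
    (by linarith) ha hv.le hk.le hv.le
  have h7 : (1 - t) * a + (1 - (1 - t)) * (k * v) = a + 1 := by
    have : t * (k * v - a) = 1 := by rw [ht]; field_simp
    linarith
  have h8 : (1 - t) * v + (1 - (1 - t)) * v = v := by ring
  rw [h7, h8, h1] at h6
  nlinarith

theorem Phi_gt_chord (P : PhiFacts k) {h : ℝ} (h0 : 0 < h) (hk : h < k) :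
    h / k < Phi k 1 h := by
  have hk0 : (0 : ℝ) < k := by linarith
  obtain ⟨δ₀, hδ₀, hder⟩ := P.der (1 / (2 * k)) (by positivity)
  set d := min δ₀ (k - h) with hd
  have hd0 : 0 < d := lt_min hδ₀ (by linarith)
  have hd1 : d ≤ k - h := min_le_right _ _
  have h1 := hder d hd0.le (min_le_left _ _)
  have hkd : 0 < k - d := by linarith
  set t := h / (k - d) with ht
  have ht0 : 0 < t := by positivity
  have ht1 : t ≤ 1 := by rw [ht, div_le_one hkd]; linarith
  have h2 := Phi_conc P (t := t) (a := 1) (b := k - d) (a' := 1) (b' := 0) ht0.le ht1 zero_le_one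
    hkd.le zero_le_one le_rfl
  have h3 : t * (k - d) = h := by rw [ht]; field_simp
  have h4 : t * 1 + (1 - t) * 1 = 1 := by ring
  rw [h4, h3, mul_zero, add_zero] at h2
  have h5 := P.nonneg 1 0
  have h6 : h / k = t * ((k - d) / k) := by rw [← h3]; ring
  have h7 : (k - d) / k < 1 - 1 / (2 * k) * d := by
    rw [sub_div, div_self hk0.ne']
    have : d / k = 2 * (1 / (2 * k) * d) := by field_simp
    have h8 : 0 < 1 / (2 * (k : ℝ)) * d := by positivity
    linarith
  rw [h6]
  have h8 : t * ((k - d) / k) < t * (1 - 1 / (2 * k) * d) := mul_lt_mul_of_pos_left h7 ht0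
  have h9 : t * (1 - 1 / (2 * k) * d) ≤ t * Phi k 1 (k - d) := mul_le_mul_of_nonneg_left h1 ht0.le
  have h10 : 0 ≤ (1 - t) * Phi k 1 0 := mul_nonneg (by linarith) h5
  linarith

theorem Phi_strict_sat (P : PhiFacts k) (hk0 : (0 : ℝ) < k) {a w : ℝ} (ha : 0 < a) (hw : 0 ≤ w)
    (h : w < a * k) : Phi k a w + 1 < Phi k (a + 1) (w + k) := by
  have h1 : Phi k a w < a := by
    have h3 := P.hom a 1 (w / a) ha.le zero_le_one (by positivity)
    rw [mul_one, mul_div_cancel₀ _ ha.ne'] at h3
    have h4 := P.notsat (w / a) (by positivity) (by rw [div_lt_iff₀ ha]; linarith)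
    rw [h3]
    calc a * Phi k 1 (w / a) < a * 1 := mul_lt_mul_of_pos_left h4 ha
      _ = a := mul_one a
  have h2 : Phi k a (a * k) = a := by
    have h3 := P.hom a 1 k ha.le zero_le_one (Nat.cast_nonneg k)
    rw [mul_one, P.sat k le_rfl, mul_one] at h3
    exact h3
  set s := (a - Phi k a w) / (a * k - w) with hs
  have hs0 : 0 < s := div_pos (by linarith) (by linarith)
  obtain ⟨δ₀, hδ₀, hder⟩ := P.der (s / 2) (by positivity)
  set d := min δ₀ (min (k : ℝ) (a * k - w)) with hd
  have hd0 : 0 < d := lt_min hδ₀ (lt_min hk0 (by linarith))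
  have hdk : d ≤ k := (min_le_right _ _).trans (min_le_left _ _)
  have hdw : d ≤ a * k - w := (min_le_right _ _).trans (min_le_right _ _)
  have h3 := hder d hd0.le (min_le_left _ _)
  -- concavity
  set t := d / (a * k - w) with ht
  have hakw : 0 < a * k - w := by linarith
  have ht0 : 0 < t := by positivity
  have ht1 : t ≤ 1 := by rw [ht, div_le_one hakw]; exact hdw
  have h4 := Phi_conc P (t := 1 - t) (a := a) (b := w) (a' := a) (b' := a * k) (by linarith)
    (by linarith) ha.le hw ha.le (by positivity)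
  have h5 : (1 - t) * a + (1 - (1 - t)) * a = a := by ring
  have h6 : (1 - t) * w + (1 - (1 - t)) * (a * k) = w + d := by
    have : t * (a * k - w) = d := by rw [ht]; field_simp
    linarith
  rw [h5, h6, h2] at h4
  have h7 : t * (a - Phi k a w) = s * d := by rw [ht, hs]; ring
  have h8 := P.superadd a (w + d) 1 (k - d) ha.le (by positivity) zero_le_one (by linarith)
  have h9 : w + d + (k - d) = w + k := by ring
  rw [h9] at h8
  have h10 : 0 < s * d := by positivity
  nlinarith

end H53

open H53 in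
theorem stmt_LC : Stmt_LC := by
  intro k hk P K hK δ hδ
  have hk0 : (0 : ℝ) < k := by
    have : 0 < k := by omega
    exact_mod_cast this
  have hK1 : (1 : ℝ) ≤ K := by exact_mod_cast hK
  set lo : ℝ := (1 / k + δ) * (2 * K + 1) with hlo
  set hi : ℝ := (k - δ) * (2 * K + 1) with hhi
  have hlo0 : 0 < lo := by positivity
  set S : Set (ℝ × ℝ) := {p | 0 ≤ p.2 ∧ p.2 ≤ p.1 ∧ lo ≤ p.1 ∧ p.1 ≤ hi} with hS
  set D : ℝ × ℝ → ℝ := fun p =>
    Phi k (2 * K + 1) p.1 - Phi k (2 * K) (p.1 - p.2) - min 1 (p.2 / k) with hD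
  have hpos : ∀ p ∈ S, 0 < D p := by
    rintro ⟨v, h⟩ ⟨h0, hhv, hlov, hvhi⟩
    simp only at h0 hhv hlov hvhi
    have hv : 0 < v := lt_of_lt_of_le hlo0 hlov
    simp only [hD]
    rcases eq_or_lt_of_le h0 with h1 | h1
    · rw [← h1]
      have h2 := Phi_strict_row P (a := 2 * K) (v := v) (by positivity) hv (by
        have h3 : k * lo ≤ k * v := mul_le_mul_of_nonneg_left hlov hk0.le
        have h4 : k * lo = (1 + k * δ) * (2 * K + 1) := by rw [hlo]; field_simp
        have h5 : 0 < k * δ * (2 * K + 1) := by positivity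
        nlinarith)
      simp only [sub_zero, zero_div]
      rw [min_eq_right zero_le_one]
      linarith
    · rcases lt_or_ge h k with h2 | h2
      · have h3 := Phi_gt_chord P h1 h2
        have h4 := P.superadd (2 * K) (v - h) 1 h (by positivity) (by linarith) zero_le_one h0
        rw [sub_add_cancel] at h4
        have h5 : min 1 (h / k) ≤ h / k := min_le_right _ _
        linarith
      · have h3 : min 1 (h / k) ≤ 1 := min_le_left _ _
        have h4 := P.mono (2 * K) (2 * K) (v - h) (v - k) le_rfl (by linarith)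
        have h5 := Phi_strict_sat P hk0 (a := 2 * K) (w := v - k) (by positivity) (by linarith) (by
          have h6 : hi = (2 * K) * k + k - δ * (2 * K + 1) := by rw [hhi]; ring
          have h7 : 0 < δ * (2 * K + 1) := by positivity
          linarith)
        rw [sub_add_cancel] at h5
        linarith
  have hcomp : IsCompact S := by
    have h1 : IsClosed S := by
      have e1 : IsClosed {p : ℝ × ℝ | 0 ≤ p.2} := isClosed_le continuous_const continuous_snd
      have e2 : IsClosed {p : ℝ × ℝ | p.2 ≤ p.1} := isClosed_le continuous_snd continuous_fst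
      have e3 : IsClosed {p : ℝ × ℝ | lo ≤ p.1} := isClosed_le continuous_const continuous_fst
      have e4 : IsClosed {p : ℝ × ℝ | p.1 ≤ hi} := isClosed_le continuous_fst continuous_const
      have : S = {p : ℝ × ℝ | 0 ≤ p.2} ∩ ({p : ℝ × ℝ | p.2 ≤ p.1} ∩ ({p : ℝ × ℝ | lo ≤ p.1} ∩
          {p : ℝ × ℝ | p.1 ≤ hi})) := by ext p; rfl
      rw [this]
      exact e1.inter (e2.inter (e3.inter e4))
    refine (isCompact_Icc (a := ((lo, 0) : ℝ × ℝ)) (b := (hi, hi))).of_isClosed_subset h1 ?_
    rintro ⟨v, h⟩ ⟨h0, hhv, hlov, hvhi⟩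
    simp only at h0 hhv hlov hvhi
    exact ⟨⟨hlov, h0⟩, ⟨hvhi, hhv.trans hvhi⟩⟩
  have hcont : ContinuousOn D S := by
    have e1 : ContinuousOn (fun p : ℝ × ℝ => Phi k (2 * K + 1) p.1) S :=
      (Phi_contOn P (a := 2 * K + 1) (by positivity)).comp continuous_fst.continuousOn
        fun p hp => le_trans hp.1 hp.2.1
    have e2 : ContinuousOn (fun p : ℝ × ℝ => Phi k (2 * K) (p.1 - p.2)) S :=
      (Phi_contOn P (a := 2 * K) (by positivity)).comp
        (continuous_fst.sub continuous_snd).continuousOn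
        fun p hp => sub_nonneg.mpr hp.2.1
    have e3 : ContinuousOn (fun p : ℝ × ℝ => min 1 (p.2 / (k : ℝ))) S :=
      (continuous_const.min (continuous_snd.div_const _)).continuousOn
    exact (e1.sub e2).sub e3
  rcases S.eq_empty_or_nonempty with hE | hN
  · refine ⟨1, one_pos, fun v h h0 hhv hlov hvhi => ?_⟩
    exact absurd (show (v, h) ∈ S from ⟨h0, hhv, hlov, hvhi⟩) (by rw [hE]; exact fun x => x)
  · obtain ⟨p, hp, hmin⟩ := hcomp.exists_isMinOn hN hcont
    refine ⟨D p, hpos p hp, fun v h h0 hhv hlov hvhi => ?_⟩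
    have h1 := hmin (show (v, h) ∈ S from ⟨h0, hhv, hlov, hvhi⟩)
    have h2 : D p ≤ D (v, h) := h1
    have h3 : D (v, h) = Phi k (2 * K + 1) v - Phi k (2 * K) (v - h) - min 1 (h / k) := rfl
    linarith

end Pool.Agent.LCSV
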